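import Mathlib

/-!
# Fourier decay and the number of classes (helper98)
-/

set_option autoImplicit false
open MeasureTheory ProbabilityTheory Filter Topology Set
open scoped ENNReal NNReal

namespace Pool.Agent.L5helper98.FS

/-- The negative moment of the Gaussian law. -/
lemma gauss_moment {s : ℝ} (h0 : 0 < s) (h1 : s < 1) :
    ∫⁻ g, ENNReal.ofReal (|g| ^ (-s)) ∂(gaussianReal 0 1) ≠ ∞ := by
  have hle : gaussianReal 0 1 ≤ (volume : Measure ℝ) := by
    rw [gaussianReal_of_var_ne_zero 0 one_ne_zero]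
    conv_rhs => rw [← withDensity_one (μ := (volume : Measure ℝ))]
    apply withDensity_mono
    refine Filter.Eventually.of_forall fun x => ?_
    simp only [Pi.one_apply]
    rw [gaussianPDF, ← ENNReal.ofReal_one]
    apply ENNReal.ofReal_le_ofReal
    unfold gaussianPDFReal
    have h2 : (Real.sqrt (2 * Real.pi * (1 : ℝ≥0)))⁻¹ ≤ 1 := by
      apply inv_le_one_of_one_le₀
      rw [Real.one_le_sqrt]
      have := Real.pi_gt_three
      simp only [NNReal.coe_one, mul_one]
      linarith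
    have h3 : Real.exp (-(x - 0) ^ 2 / (2 * ((1 : ℝ≥0) : ℝ))) ≤ 1 := by
      apply Real.exp_le_one_iff.2
      simp only [NNReal.coe_one]
      nlinarith [sq_nonneg x]
    calc _ ≤ 1 * (1 : ℝ) := by
          apply mul_le_mul h2 h3 (Real.exp_nonneg _) zero_le_one
      _ = 1 := one_mul 1
  have hI : IntegrableOn (fun g : ℝ => |g| ^ (-s)) (Ioo (-1) 1) := by
    have h : IntegrableOn (fun x : ℝ => |x| ^ (-s)) (Ioc 0 1) := by
      have h : IntegrableOn (fun x : ℝ => x ^ (-s)) (Ioc 0 1) :=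
        (intervalIntegrable_iff_integrableOn_Ioc_of_le zero_le_one).1
          (intervalIntegral.intervalIntegrable_rpow' (by linarith))
      refine h.congr_fun ?_ measurableSet_Ioc
      intro x hx
      simp only
      rw [abs_of_pos hx.1]
    have h' : IntegrableOn (fun x : ℝ => |x| ^ (-s)) (Icc 0 1) :=
      (integrableOn_Icc_iff_integrableOn_Ioc (by simp)).2 h
    have h2 := (Measure.measurePreserving_neg (volume : Measure ℝ)).integrableOn_comp_preimage
      (Homeomorph.neg ℝ).measurableEmbedding (f := fun x : ℝ => |x| ^ (-s)) (s := Icc 0 1)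
    have h3 := h2.2 h'
    have h4 : (Neg.neg ⁻¹' Icc (0 : ℝ) 1) = Icc (-1) 0 := by ext x; simp [and_comm, neg_le]
    rw [h4] at h3
    have h5 : IntegrableOn (fun x : ℝ => |x| ^ (-s)) (Icc (-1) 0) := by
      refine h3.congr_fun ?_ measurableSet_Icc
      intro x _
      simp
    refine (h5.union h').mono_set ?_
    intro x hx
    rcases le_total x 0 with h6 | h6
    · exact Or.inl ⟨hx.1.le, h6⟩
    · exact Or.inr ⟨h6, hx.2.le⟩
  have hfin : ∫⁻ g in Ioo (-1) 1, ENNReal.ofReal (|g| ^ (-s)) ≠ ∞ := by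
    have := hI.2
    unfold HasFiniteIntegral at this
    refine ne_of_lt (lt_of_le_of_lt (le_of_eq ?_) this)
    refine lintegral_congr fun g => ?_
    rw [Real.enorm_of_nonneg (by positivity)]
  have hpt : ∀ g : ℝ, ENNReal.ofReal (|g| ^ (-s)) ≤
      (Ioo (-1 : ℝ) 1).indicator (fun g => ENNReal.ofReal (|g| ^ (-s))) g + 1 := by
    intro g
    by_cases h : g ∈ Ioo (-1 : ℝ) 1
    · rw [indicator_of_mem h]
      exact le_self_add
    · rw [indicator_of_notMem h, zero_add, ← ENNReal.ofReal_one]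
      apply ENNReal.ofReal_le_ofReal
      apply Real.rpow_le_one_of_one_le_of_nonpos _ (by linarith)
      by_contra hc
      push Not at hc
      exact h (abs_lt.1 hc)
  refine ne_top_of_le_ne_top ?_ (lintegral_mono hpt)
  rw [lintegral_add_right _ measurable_const, lintegral_const, measure_univ, mul_one]
  refine ENNReal.add_ne_top.2 ⟨?_, ENNReal.one_ne_top⟩
  rw [lintegral_indicator measurableSet_Ioo]
  exact ne_top_of_le_ne_top hfin (lintegral_mono' (Measure.restrict_mono le_rfl hle) le_rfl)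

/-- The energy in terms of the Fourier transform. -/
lemma energy_eq (μ : Measure (ℝ × ℝ)) [IsProbabilityMeasure μ] (δ : ℝ) :
    ∫ z : (ℝ × ℝ) × (ℝ × ℝ), Real.exp (-((z.1.2 - z.2.2) / δ) ^ 2 / 2) ∂(μ.prod μ)
      = ∫ g, ‖∫ p, Complex.exp (((g / δ * p.2 : ℝ) : ℂ) * Complex.I) ∂μ‖ ^ 2
        ∂(gaussianReal 0 1) := by
  have h1 : ∀ x : ℝ, ((Real.exp (-x ^ 2 / 2) : ℝ) : ℂ)
      = ∫ g, Complex.exp (((x * g : ℝ) : ℂ) * Complex.I) ∂(gaussianReal 0 1) := by
    intro x
    have := charFun_gaussianReal (μ := 0) (v := 1) x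
    rw [charFun_apply_real] at this
    push_cast
    rw [this]
    congr 1
    push_cast
    ring
  have h2 : ∀ z : (ℝ × ℝ) × (ℝ × ℝ), ∀ g : ℝ,
      Complex.exp ((((z.1.2 - z.2.2) / δ * g : ℝ) : ℂ) * Complex.I)
      = Complex.exp (((g / δ * z.1.2 : ℝ) : ℂ) * Complex.I) *
        Complex.exp (((-(g / δ * z.2.2) : ℝ) : ℂ) * Complex.I) := by
    intro z g
    rw [← Complex.exp_add]
    congr 1
    push_cast
    ring
  have h3 : ∀ g : ℝ, ∫ z : (ℝ × ℝ) × (ℝ × ℝ),
      Complex.exp ((((z.1.2 - z.2.2) / δ * g : ℝ) : ℂ) * Complex.I) ∂(μ.prod μ)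
      = ((‖∫ p, Complex.exp (((g / δ * p.2 : ℝ) : ℂ) * Complex.I) ∂μ‖ ^ 2 : ℝ) : ℂ) := by
    intro g
    simp_rw [h2 _ g]
    rw [integral_prod_mul (fun p : ℝ × ℝ => Complex.exp (((g / δ * p.2 : ℝ) : ℂ) * Complex.I))
      (fun p : ℝ × ℝ => Complex.exp (((-(g / δ * p.2) : ℝ) : ℂ) * Complex.I))]
    have h4 : ∫ p : ℝ × ℝ, Complex.exp (((-(g / δ * p.2) : ℝ) : ℂ) * Complex.I) ∂μ
        = (starRingEnd ℂ) (∫ p : ℝ × ℝ, Complex.exp (((g / δ * p.2 : ℝ) : ℂ) * Complex.I) ∂μ) := by
      rw [← integral_conj]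
      refine integral_congr_ae (Filter.Eventually.of_forall fun p => ?_)
      simp only
      rw [← Complex.exp_conj, map_mul, Complex.conj_I, Complex.conj_ofReal]
      congr 1
      push_cast
      ring
    rw [h4, Complex.mul_conj, Complex.normSq_eq_norm_sq]
  have hint : Integrable (Function.uncurry fun (z : (ℝ × ℝ) × (ℝ × ℝ)) (g : ℝ) =>
      Complex.exp ((((z.1.2 - z.2.2) / δ * g : ℝ) : ℂ) * Complex.I))
      ((μ.prod μ).prod (gaussianReal 0 1)) := by
    refine Integrable.of_bound (C := 1) ?_ ?_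
    · apply Measurable.aestronglyMeasurable
      unfold Function.uncurry
      fun_prop
    · exact Filter.Eventually.of_forall fun x => (Complex.norm_exp_ofReal_mul_I _).le
  have h5 := integral_integral_swap hint
  simp_rw [h3, ← h1] at h5
  rw [integral_complex_ofReal, integral_complex_ofReal] at h5
  exact_mod_cast h5

/-- Few classes of small oscillation contradict the decay of the Fourier transform. -/
lemma classes_lower (μ : Measure (ℝ × ℝ)) [IsProbabilityMeasure μ] {s : ℝ} (h0 : 0 < s)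
    (h1 : s < 1) {C : ℝ} (hC : ∀ ξ : ℝ × ℝ, 1 ≤ ‖ξ‖ →
      ‖∫ p, Complex.exp (((ξ.1 * p.1 + ξ.2 * p.2 : ℝ) : ℂ) * Complex.I) ∂μ‖
        ≤ C * ‖ξ‖ ^ (-s / 2)) :
    ∃ K : ℝ, ∀ δ : ℝ, 0 < δ → ∀ (N : ℕ) (a : ℝ × ℝ → ℕ), Measurable a →
      (∀ᵐ p ∂μ, a p < N) →
      (∀ᵐ z : (ℝ × ℝ) × (ℝ × ℝ) ∂(μ.prod μ), a z.1 = a z.2 → |z.1.2 - z.2.2| ≤ δ) →
      1 ≤ K * N * δ ^ s := by
  set L : ℝ := (∫⁻ g, ENNReal.ofReal (|g| ^ (-s)) ∂(gaussianReal 0 1)).toReal with hL
  set C' : ℝ := max 1 (C ^ 2) with hC'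
  have hC'0 : 0 ≤ C' := le_trans zero_le_one (le_max_left _ _)
  refine ⟨Real.exp (1 / 2) * (C' * L), ?_⟩
  intro δ hδ N a ha haN hosc
  -- the Fourier transform
  have hF : ∀ ξ : ℝ, ξ ≠ 0 →
      ‖∫ p : ℝ × ℝ, Complex.exp (((ξ * p.2 : ℝ) : ℂ) * Complex.I) ∂μ‖ ^ 2 ≤ C' * |ξ| ^ (-s) := by
    intro ξ hξ
    have hpos : 0 < |ξ| := abs_pos.2 hξ
    rcases le_total 1 |ξ| with h | h
    · have hn : ‖((0 : ℝ), ξ)‖ = |ξ| := by
        rw [Prod.norm_mk, norm_zero, Real.norm_eq_abs]
        exact max_eq_right hpos.le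
      have h2 := hC (0, ξ) (by rw [hn]; exact h)
      rw [hn] at h2
      simp only [zero_mul, zero_add] at h2
      calc _ ≤ (C * |ξ| ^ (-s / 2)) ^ 2 := by
            exact pow_le_pow_left₀ (norm_nonneg _) h2 2
        _ = C ^ 2 * |ξ| ^ (-s) := by
            rw [mul_pow, ← Real.rpow_natCast (|ξ| ^ (-s / 2)) 2, ← Real.rpow_mul hpos.le]
            congr 2
            push_cast
            ring
        _ ≤ C' * |ξ| ^ (-s) := by
            apply mul_le_mul_of_nonneg_right (le_max_right _ _) (by positivity)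
    · have h2 : ‖∫ p : ℝ × ℝ, Complex.exp (((ξ * p.2 : ℝ) : ℂ) * Complex.I) ∂μ‖ ≤ 1 := by
        refine (norm_integral_le_integral_norm _).trans ?_
        simp_rw [Complex.norm_exp_ofReal_mul_I]
        simp
      have h3 : (1 : ℝ) ≤ |ξ| ^ (-s) :=
        Real.one_le_rpow_of_pos_of_le_one_of_nonpos hpos h (by linarith)
      calc _ ≤ (1 : ℝ) ^ 2 := pow_le_pow_left₀ (norm_nonneg _) h2 2
        _ = 1 * 1 := by norm_num
        _ ≤ C' * |ξ| ^ (-s) := mul_le_mul (le_max_left _ _) h3 zero_le_one hC'0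
  -- upper bound for the energy
  set J : ℝ := ∫ z : (ℝ × ℝ) × (ℝ × ℝ), Real.exp (-((z.1.2 - z.2.2) / δ) ^ 2 / 2) ∂(μ.prod μ)
    with hJ
  have hJle : J ≤ C' * L * δ ^ s := by
    rw [hJ, energy_eq]
    have hnn : 0 ≤ C' * L * δ ^ s := by positivity
    have hlin : ∫⁻ g, ENNReal.ofReal
        (‖∫ p, Complex.exp (((g / δ * p.2 : ℝ) : ℂ) * Complex.I) ∂μ‖ ^ 2) ∂(gaussianReal 0 1)
        ≤ ENNReal.ofReal (C' * L * δ ^ s) := by
      have hne : ∀ᵐ g ∂(gaussianReal 0 1), g ≠ 0 := by
        have hac := gaussianReal_absolutelyContinuous 0 (one_ne_zero (α := ℝ≥0))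
        apply hac.ae_le
        exact (Set.countable_singleton (0 : ℝ)).ae_notMem volume
      calc _ ≤ ∫⁻ g, ENNReal.ofReal (C' * δ ^ s) * ENNReal.ofReal (|g| ^ (-s))
            ∂(gaussianReal 0 1) := by
            apply lintegral_mono_ae
            filter_upwards [hne] with g hg
            rw [← ENNReal.ofReal_mul (by positivity)]
            apply ENNReal.ofReal_le_ofReal
            refine (hF (g / δ) (div_ne_zero hg hδ.ne')).trans (le_of_eq ?_)
            rw [abs_div, abs_of_pos hδ, Real.div_rpow (abs_nonneg g) hδ.le, Real.rpow_neg hδ.le]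
            field_simp
        _ = ENNReal.ofReal (C' * δ ^ s) * ENNReal.ofReal L := by
            rw [lintegral_const_mul _ (by fun_prop), hL,
              ENNReal.ofReal_toReal (gauss_moment h0 h1)]
        _ = _ := by
            rw [← ENNReal.ofReal_mul (by positivity)]
            congr 1
            ring
    rw [integral_eq_lintegral_of_nonneg_ae (Filter.Eventually.of_forall fun g => by positivity)]
    · exact ENNReal.toReal_le_of_le_ofReal hnn hlin
    · apply AEStronglyMeasurable.pow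
      apply AEStronglyMeasurable.norm
      have : StronglyMeasurable (Function.uncurry fun (g : ℝ) (p : ℝ × ℝ) =>
          Complex.exp (((g / δ * p.2 : ℝ) : ℂ) * Complex.I)) := by
        apply Measurable.stronglyMeasurable
        unfold Function.uncurry
        fun_prop
      exact this.integral_prod_right.aestronglyMeasurable
  -- lower bound for the energy
  set D : Set ((ℝ × ℝ) × (ℝ × ℝ)) := {z | a z.1 = a z.2} with hD
  have hDm : MeasurableSet D := measurableSet_eq_fun (ha.comp measurable_fst) (ha.comp measurable_snd)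
  have hlow : Real.exp (-(1 / 2)) * (μ.prod μ).real D ≤ J := by
    have h2 : ∫ z, D.indicator (fun _ => Real.exp (-(1 / 2))) z ∂(μ.prod μ)
        = Real.exp (-(1 / 2)) * (μ.prod μ).real D := by
      rw [integral_indicator_const _ hDm, smul_eq_mul, mul_comm]
    rw [← h2, hJ]
    apply integral_mono_ae
    · exact (integrable_const _).indicator hDm
    · refine Integrable.of_bound (C := 1) ?_ ?_
      · apply Measurable.aestronglyMeasurable
        fun_prop
      · refine Filter.Eventually.of_forall fun z => ?_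
        rw [Real.norm_eq_abs, abs_of_pos (Real.exp_pos _)]
        apply Real.exp_le_one_iff.2
        nlinarith [sq_nonneg ((z.1.2 - z.2.2) / δ)]
    · filter_upwards [hosc] with z hz
      by_cases hzD : z ∈ D
      · rw [indicator_of_mem hzD]
        apply Real.exp_le_exp.2
        have h3 := hz hzD
        have h4 : ((z.1.2 - z.2.2) / δ) ^ 2 ≤ 1 := by
          rw [sq_le_one_iff_abs_le_one, abs_div, abs_of_pos hδ]
          exact (div_le_one hδ).2 h3
        linarith
      · rw [indicator_of_notMem hzD]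
        exact (Real.exp_pos _).le
  -- the diagonal
  have hAm : ∀ k : ℕ, MeasurableSet (a ⁻¹' {k}) := fun k => ha (measurableSet_singleton k)
  have hdiag : ∑ k ∈ Finset.range N, (μ.real (a ⁻¹' {k})) ^ 2 ≤ (μ.prod μ).real D := by
    have h2 : ∀ k, (μ.real (a ⁻¹' {k})) ^ 2 = (μ.prod μ).real ((a ⁻¹' {k}) ×ˢ (a ⁻¹' {k})) := by
      intro k
      rw [measureReal_prod_prod, sq]
    simp_rw [h2]
    rw [← measureReal_biUnion_finset]
    · refine measureReal_mono ?_ (measure_ne_top _ _)
      intro z hz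
      simp only [mem_iUnion, mem_prod, mem_preimage, mem_singleton_iff] at hz
      obtain ⟨k, _, hk1, hk2⟩ := hz
      exact hk1.trans hk2.symm
    · intro k _ l _ hkl
      rw [Function.onFun, Set.disjoint_left]
      intro z hz hz'
      exact hkl (hz.1.symm.trans hz'.1)
    · intro k _
      exact (hAm k).prod (hAm k)
  have hsum : ∑ k ∈ Finset.range N, μ.real (a ⁻¹' {k}) = 1 := by
    rw [← measureReal_biUnion_finset]
    · have : μ.real (⋃ k ∈ Finset.range N, a ⁻¹' {k}) = μ.real univ := by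
        apply measureReal_congr
        filter_upwards [haN] with p hp
        apply propext
        constructor
        · intro _; exact mem_univ p
        · intro _
          show p ∈ ⋃ k ∈ Finset.range N, a ⁻¹' {k}
          simp only [mem_iUnion, mem_preimage, mem_singleton_iff]
          exact ⟨a p, Finset.mem_range.2 hp, rfl⟩
      rw [this, probReal_univ]
    · intro k _ l _ hkl
      rw [Function.onFun, Set.disjoint_left]
      intro z hz hz'
      exact hkl (hz.symm.trans hz')
    · intro k _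
      exact hAm k
  have hcs := sq_sum_le_card_mul_sum_sq (s := Finset.range N) (f := fun k => μ.real (a ⁻¹' {k}))
  rw [hsum, Finset.card_range, one_pow] at hcs
  have hN : (0 : ℝ) ≤ N := Nat.cast_nonneg N
  have hexp : Real.exp (1 / 2) * Real.exp (-(1 / 2)) = 1 := by
    rw [← Real.exp_add]; norm_num
  have hD' : (μ.prod μ).real D ≤ Real.exp (1 / 2) * (C' * L * δ ^ s) := by
    have h2 : Real.exp (1 / 2) * (Real.exp (-(1 / 2)) * (μ.prod μ).real D)
        ≤ Real.exp (1 / 2) * (C' * L * δ ^ s) :=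
      mul_le_mul_of_nonneg_left (hlow.trans hJle) (Real.exp_pos _).le
    rwa [← mul_assoc, hexp, one_mul] at h2
  calc (1 : ℝ) ≤ N * ∑ k ∈ Finset.range N, (μ.real (a ⁻¹' {k})) ^ 2 := hcs
    _ ≤ N * (Real.exp (1 / 2) * (C' * L * δ ^ s)) :=
      mul_le_mul_of_nonneg_left (hdiag.trans hD') hN
    _ = _ := by ring

end Pool.Agent.L5helper98.FS
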