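import Pool.Agent.L5helper98.FS.Levy
import Pool.Agent.L5helper98.FS.Fourier

/-!
# Counting the pieces of small oscillation (helper98)
-/

set_option autoImplicit false
open MeasureTheory ProbabilityTheory Filter Topology Set
open scoped ENNReal NNReal

namespace Pool.Agent.L5helper98.FS

/-- Truncated jumps in units of `δ`. -/
noncomputable def hh (δ s t : ℝ) (p : ℝ × ℝ) : ℝ≥0∞ :=
  (Ioc s t).indicator (fun _ => ENNReal.ofReal (min (|p.2| / δ) 1)) p.1

lemma measurable_hh (δ s t : ℝ) : Measurable (hh δ s t) := by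
  have : hh δ s t = ((Ioc s t) ×ˢ (univ : Set ℝ)).indicator
      (fun p => ENNReal.ofReal (min (|p.2| / δ) 1)) := by
    funext p
    unfold hh
    by_cases h : p.1 ∈ Ioc s t
    · rw [indicator_of_mem h, indicator_of_mem (by exact ⟨h, mem_univ _⟩)]
    · rw [indicator_of_notMem h, indicator_of_notMem (by exact fun h' => h h'.1)]
  rw [this]
  exact Measurable.indicator (by fun_prop) (measurableSet_Ioc.prod MeasurableSet.univ)

/-- The count. -/
noncomputable def HH (δ : ℝ) (ω : Om) (s t : ℝ) : ℝ≥0∞ := ∫⁻ p, hh δ s t p ∂(M ω)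

lemma HH_add (δ : ℝ) (ω : Om) {s t : ℝ} (hs : 0 ≤ s) (hst : s ≤ t) :
    HH δ ω 0 s + HH δ ω s t = HH δ ω 0 t := by
  unfold HH
  rw [← lintegral_add_left (measurable_hh δ 0 s)]
  refine lintegral_congr fun p => ?_
  unfold hh
  by_cases h1 : p.1 ∈ Ioc 0 s
  · have h2 : p.1 ∈ Ioc 0 t := ⟨h1.1, h1.2.trans hst⟩
    have h3 : p.1 ∉ Ioc s t := fun h => absurd h.1 (not_lt.2 h1.2)
    rw [indicator_of_mem h1, indicator_of_mem h2, indicator_of_notMem h3, add_zero]
  · rw [indicator_of_notMem h1, zero_add]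
    by_cases h2 : p.1 ∈ Ioc 0 t
    · have h3 : p.1 ∈ Ioc s t := by
        refine ⟨?_, h2.2⟩
        by_contra h
        exact h1 ⟨h2.1, not_lt.1 h⟩
      rw [indicator_of_mem h2, indicator_of_mem h3]
    · have h3 : p.1 ∉ Ioc s t := fun h => h2 ⟨lt_of_le_of_lt hs h.1, h.2⟩
      rw [indicator_of_notMem h2, indicator_of_notMem h3]

/-- Small count means small oscillation. -/
lemma osc_le {ω : Om} (h : good ω) {δ : ℝ} (hδ : 0 < δ) {s t : ℝ} (hs : 0 ≤ s) (hst : s ≤ t)
    (hH : HH δ ω s t < 1) : |XX t ω - XX s ω| ≤ δ := by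
  set A : Set (ℝ × ℝ) := {p | p.1 ∈ Ioc s t ∧ δ ≤ |p.2|} with hA
  have hAm : MeasurableSet A := by
    apply MeasurableSet.inter
    · exact measurable_fst measurableSet_Ioc
    · have : Measurable (fun p : ℝ × ℝ => |p.2|) := by fun_prop
      exact measurableSet_le measurable_const this
  have hA0 : M ω A = 0 := by
    by_contra hne
    have h1 := one_le_M ω hAm hne
    have h2 : M ω A ≤ HH δ ω s t := by
      unfold HH
      rw [← lintegral_indicator_one hAm]
      apply lintegral_mono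
      intro p
      by_cases hp : p ∈ A
      · rw [indicator_of_mem hp]
        unfold hh
        rw [indicator_of_mem hp.1, min_eq_right ((one_le_div hδ).2 hp.2)]
        simp
      · rw [indicator_of_notMem hp]
        exact zero_le
    exact absurd (lt_of_le_of_lt (h1.trans h2) hH) (lt_irrefl _)
  rw [h.XX_sub hs hst]
  have h3 : ‖∫ p, ff s t p ∂(M ω)‖ₑ ≤ ENNReal.ofReal δ := by
    calc ‖∫ p, ff s t p ∂(M ω)‖ₑ ≤ ∫⁻ p, ‖ff s t p‖ₑ ∂(M ω) := enorm_integral_le_lintegral_enorm _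
      _ ≤ ∫⁻ p, ENNReal.ofReal δ * hh δ s t p ∂(M ω) := by
        apply lintegral_mono_ae
        have hae : ∀ᵐ p ∂(M ω), p ∉ A := measure_eq_zero_iff_ae_notMem.1 hA0
        filter_upwards [hae] with p hp
        unfold ff hh
        by_cases hm : p.1 ∈ Ioc s t
        · rw [indicator_of_mem hm, indicator_of_mem hm, ← ENNReal.ofReal_mul hδ.le,
            Real.enorm_eq_ofReal_abs]
          apply ENNReal.ofReal_le_ofReal
          have h4 : |p.2| < δ := by
            by_contra hc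
            exact hp ⟨hm, not_lt.1 hc⟩
          rw [min_eq_left ((div_le_one hδ).2 h4.le)]
          field_simp
          exact le_rfl
        · rw [indicator_of_notMem hm, indicator_of_notMem hm]
          simp
      _ = ENNReal.ofReal δ * HH δ ω s t := by
        rw [lintegral_const_mul _ (measurable_hh δ s t)]
        rfl
      _ ≤ ENNReal.ofReal δ * 1 := by gcongr
      _ = ENNReal.ofReal δ := mul_one _
  rw [Real.enorm_eq_ofReal_abs] at h3
  exact (ENNReal.ofReal_le_ofReal_iff hδ.le).1 h3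

/-- The mean of the count. -/
lemma lintegral_HH {α : ℝ} (h0 : 0 < α) (h1 : α < 1) {δ : ℝ} (hδ : 0 < δ) :
    ∫⁻ ω, HH δ ω 0 1 ∂(PP (QQ α))
      = ENNReal.ofReal (δ ^ (-α) * ((CC α)⁻¹ * ∫ x, min |x| 1 * w α x)) := by
  unfold HH
  rw [lintegral_lintegral_M _ (measurable_hh δ 0 1)]
  unfold hh
  rw [lintegral_QQ α (g := fun x => ENNReal.ofReal (min (|x| / δ) 1)) (by fun_prop) le_rfl,
    lintegral_nu_min h0 h1 hδ]
  simp

lemma measurable_HH (δ s t : ℝ) : Measurable (fun ω : Om => HH δ ω s t) :=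
  measurable_lintegral_M (measurable_hh δ s t)

/-- Along the scales `2 ^ (-n)` the count is almost surely `o(δ ^ (-β))`, `β > α`. -/
lemma ae_tendsto {α β : ℝ} (h0 : 0 < α) (h1 : α < 1) (hβ : α < β) :
    ∀ᵐ ω ∂(PP (QQ α)), Tendsto (fun n : ℕ =>
      ENNReal.ofReal (((1 / 2 : ℝ) ^ n) ^ β) * HH ((1 / 2 : ℝ) ^ n) ω 0 1) atTop (𝓝 0) := by
  set K : ℝ := (CC α)⁻¹ * ∫ x, min |x| 1 * w α x with hK
  have hK0 : 0 ≤ K := mul_nonneg (inv_nonneg.2 (CC_pos h0 h1).le)
    (integral_nonneg fun x => mul_nonneg (by positivity) (w_nonneg α x))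
  have h2 : ∫⁻ ω, ∑' n : ℕ, ENNReal.ofReal (((1 / 2 : ℝ) ^ n) ^ β) *
      HH ((1 / 2 : ℝ) ^ n) ω 0 1 ∂(PP (QQ α)) ≠ ∞ := by
    rw [lintegral_tsum (fun n => ((measurable_HH _ 0 1).const_mul _).aemeasurable)]
    have h3 : ∀ n : ℕ, ∫⁻ ω, ENNReal.ofReal (((1 / 2 : ℝ) ^ n) ^ β) *
        HH ((1 / 2 : ℝ) ^ n) ω 0 1 ∂(PP (QQ α))
        = ENNReal.ofReal (K * ((1 / 2 : ℝ) ^ (β - α)) ^ n) := by
      intro n
      have hn : (0 : ℝ) < (1 / 2 : ℝ) ^ n := by positivity
      rw [lintegral_const_mul _ (measurable_HH _ 0 1), lintegral_HH h0 h1 hn,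
        ← ENNReal.ofReal_mul (by positivity), ← hK]
      congr 1
      rw [← mul_assoc, ← Real.rpow_add hn, mul_comm]
      congr 1
      rw [← Real.rpow_natCast, ← Real.rpow_natCast, ← Real.rpow_mul (by norm_num),
        ← Real.rpow_mul (by norm_num)]
      congr 1
      ring
    simp_rw [h3]
    have hr : (1 / 2 : ℝ) ^ (β - α) < 1 :=
      Real.rpow_lt_one (by norm_num) (by norm_num) (by linarith)
    have hs : Summable (fun n : ℕ => K * ((1 / 2 : ℝ) ^ (β - α)) ^ n) :=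
      (summable_geometric_of_lt_one (by positivity) hr).mul_left K
    rw [← ENNReal.ofReal_tsum_of_nonneg (fun n => by positivity) hs]
    exact ENNReal.ofReal_ne_top
  have h4 := ae_lt_top (Measurable.tsum fun n => ((measurable_HH ((1 / 2 : ℝ) ^ n) 0 1).const_mul
    (ENNReal.ofReal (((1 / 2 : ℝ) ^ n) ^ β)))) h2
  filter_upwards [h4] with ω hω
  exact ENNReal.tendsto_atTop_zero_of_tsum_ne_top hω.ne

/-- The pathwise contradiction. -/
lemma no_measure {ω : Om} (h : good ω) {β : ℝ} (h0 : 0 < β) (h1 : β < 1)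
    (hlim : Tendsto (fun n : ℕ =>
      ENNReal.ofReal (((1 / 2 : ℝ) ^ n) ^ β) * HH ((1 / 2 : ℝ) ^ n) ω 0 1) atTop (𝓝 0)) :
    ¬ ∃ (μ : Measure (ℝ × ℝ)) (K : Set (ℝ × ℝ)),
          IsProbabilityMeasure μ ∧ IsCompact K ∧
          K ⊆ {p : ℝ × ℝ | p.1 ∈ Set.Icc (0 : ℝ) 1 ∧ p.2 = XX p.1 ω} ∧
          μ Kᶜ = 0 ∧
          ∃ C : ℝ, ∀ ξ : ℝ × ℝ, 1 ≤ ‖ξ‖ →
            ‖∫ p, Complex.exp (((ξ.1 * p.1 + ξ.2 * p.2 : ℝ) : ℂ) * Complex.I) ∂μ‖
              ≤ C * ‖ξ‖ ^ (-β / 2) := by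
  rintro ⟨μ, K, hμ, hKc, hKs, hK0, C, hC⟩
  obtain ⟨K', hK'⟩ := classes_lower μ h0 h1 hC
  -- bound for every scale
  have key : ∀ n : ℕ, HH ((1 / 2 : ℝ) ^ n) ω 0 1 ≠ ∞ →
      1 ≤ K' * ((HH ((1 / 2 : ℝ) ^ n) ω 0 1).toReal + 1) * ((1 / 2 : ℝ) ^ n) ^ β := by
    intro n hfin
    set δ : ℝ := (1 / 2 : ℝ) ^ n with hδdef
    have hδ : 0 < δ := by positivity
    have hfin' : ∀ t, t ≤ 1 → HH δ ω 0 t ≠ ∞ := by
      intro t ht
      refine ne_top_of_le_ne_top hfin ?_
      apply lintegral_mono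
      intro p
      unfold hh
      apply indicator_le_indicator_of_subset (Ioc_subset_Ioc_right ht) (fun _ => zero_le)
    set G : ℝ → ℝ := fun t => (HH δ ω 0 (min t 1)).toReal with hG
    have hGmono : Monotone G := by
      intro x y hxy
      simp only [hG]
      apply ENNReal.toReal_mono (hfin' _ (min_le_right _ _))
      apply lintegral_mono
      intro p
      unfold hh
      apply indicator_le_indicator_of_subset
        (Ioc_subset_Ioc_right (min_le_min_right 1 hxy)) (fun _ => zero_le)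
    set N : ℕ := ⌊(HH δ ω 0 1).toReal⌋₊ + 1 with hN
    have hmeas : Measurable (fun p : ℝ × ℝ => ⌊G p.1⌋₊) :=
      Nat.measurable_floor.comp (hGmono.measurable.comp measurable_fst)
    have hKae : ∀ᵐ p ∂μ, p ∈ K := by
      rw [ae_iff]
      exact hK0
    have h2 := hK' δ hδ N (fun p => ⌊G p.1⌋₊) hmeas ?_ ?_
    · refine h2.trans ?_
      have hK'0 : 0 ≤ K' := by
        by_contra hneg
        push Not at hneg
        have : K' * N * δ ^ β ≤ 0 := by
          apply mul_nonpos_of_nonpos_of_nonneg _ (by positivity)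
          exact mul_nonpos_of_nonpos_of_nonneg hneg.le (Nat.cast_nonneg N)
        linarith
      have h3 : (N : ℝ) ≤ (HH δ ω 0 1).toReal + 1 := by
        rw [hN]
        push_cast
        have := Nat.floor_le (a := (HH δ ω 0 1).toReal) ENNReal.toReal_nonneg
        linarith
      gcongr
    · filter_upwards [hKae] with p hp
      have h3 := (hKs hp).1
      rw [hN, Nat.lt_succ_iff]
      apply Nat.floor_mono
      simp only [hG]
      rw [min_eq_left h3.2]
      apply ENNReal.toReal_mono hfin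
      apply lintegral_mono
      intro q
      unfold hh
      apply indicator_le_indicator_of_subset (Ioc_subset_Ioc_right h3.2) (fun _ => zero_le)
    · have hprod : ∀ᵐ z : (ℝ × ℝ) × (ℝ × ℝ) ∂(μ.prod μ), z.1 ∈ K ∧ z.2 ∈ K := by
        have e1 : ∀ᵐ z : (ℝ × ℝ) × (ℝ × ℝ) ∂(μ.prod μ), z.1 ∈ K :=
          Measure.quasiMeasurePreserving_fst.ae hKae
        have e2 : ∀ᵐ z : (ℝ × ℝ) × (ℝ × ℝ) ∂(μ.prod μ), z.2 ∈ K :=
          Measure.quasiMeasurePreserving_snd.ae hKae
        filter_upwards [e1, e2] with z h3 h4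
        exact ⟨h3, h4⟩
      -- ordered version
      have hord : ∀ x y : ℝ × ℝ, x ∈ K → y ∈ K → x.1 ≤ y.1 → ⌊G x.1⌋₊ = ⌊G y.1⌋₊ →
          |y.2 - x.2| ≤ δ := by
        intro x y hx hy hxy heq
        obtain ⟨hx1, hx2⟩ := hKs hx
        obtain ⟨hy1, hy2⟩ := hKs hy
        rw [hx2, hy2]
        apply osc_le h hδ hx1.1 hxy
        have hadd := HH_add δ ω hx1.1 hxy
        have hfx := hfin' x.1 hx1.2
        have hfy := hfin' y.1 hy1.2
        have hfxy : HH δ ω x.1 y.1 ≠ ∞ := by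
          refine ne_top_of_le_ne_top hfy ?_
          rw [← hadd]
          exact le_add_self
        have e1 : G y.1 = G x.1 + (HH δ ω x.1 y.1).toReal := by
          simp only [hG]
          rw [min_eq_left hx1.2, min_eq_left hy1.2, ← hadd, ENNReal.toReal_add hfx hfxy]
        have e2 : G y.1 < ⌊G y.1⌋₊ + 1 := Nat.lt_floor_add_one _
        have e3 : (⌊G x.1⌋₊ : ℝ) ≤ G x.1 := Nat.floor_le ENNReal.toReal_nonneg
        rw [heq] at e3
        have e4 : (HH δ ω x.1 y.1).toReal < 1 := by linarith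
        rw [← ENNReal.toReal_one] at e4
        exact (ENNReal.toReal_lt_toReal hfxy ENNReal.one_ne_top).1 e4
      filter_upwards [hprod] with z hz heq
      rcases le_total z.1.1 z.2.1 with h3 | h3
      · rw [abs_sub_comm]
        exact hord z.1 z.2 hz.1 hz.2 h3 heq
      · exact hord z.2 z.1 hz.2 hz.1 h3 heq.symm
  -- conclusion
  have hpow : Tendsto (fun n : ℕ => ((1 / 2 : ℝ) ^ n) ^ β) atTop (𝓝 0) := by
    have h2 : ∀ n : ℕ, ((1 / 2 : ℝ) ^ n) ^ β = ((1 / 2 : ℝ) ^ β) ^ n := by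
      intro n
      rw [← Real.rpow_natCast, ← Real.rpow_natCast, ← Real.rpow_mul (by norm_num),
        ← Real.rpow_mul (by norm_num)]
      congr 1
      ring
    simp_rw [h2]
    exact tendsto_pow_atTop_nhds_zero_of_lt_one (by positivity)
      (Real.rpow_lt_one (by norm_num) (by norm_num) h0)
  have hev : ∀ᶠ n : ℕ in atTop, ENNReal.ofReal (((1 / 2 : ℝ) ^ n) ^ β) *
      HH ((1 / 2 : ℝ) ^ n) ω 0 1 < ∞ := hlim.eventually (gt_mem_nhds ENNReal.zero_lt_top)
  have hlim' : Tendsto (fun n : ℕ => ((1 / 2 : ℝ) ^ n) ^ β *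
      (HH ((1 / 2 : ℝ) ^ n) ω 0 1).toReal) atTop (𝓝 0) := by
    have h2 := (ENNReal.tendsto_toReal ENNReal.zero_ne_top).comp hlim
    simp only [ENNReal.toReal_zero] at h2
    refine h2.congr fun n => ?_
    simp only [Function.comp]
    rw [ENNReal.toReal_mul, ENNReal.toReal_ofReal (by positivity)]
  have hlim2 : Tendsto (fun n : ℕ => K' * ((HH ((1 / 2 : ℝ) ^ n) ω 0 1).toReal + 1) *
      ((1 / 2 : ℝ) ^ n) ^ β) atTop (𝓝 0) := by
    have h2 := (hlim'.add hpow).const_mul K'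
    simp only [add_zero, mul_zero] at h2
    refine h2.congr fun n => ?_
    ring
  have hev2 := hlim2.eventually (gt_mem_nhds (show (0 : ℝ) < 1 from one_pos))
  obtain ⟨n, hn1, hn2⟩ := (hev.and hev2).exists
  have hfin : HH ((1 / 2 : ℝ) ^ n) ω 0 1 ≠ ∞ := by
    intro hinf
    rw [hinf, ENNReal.mul_top] at hn1
    · exact absurd hn1 (lt_irrefl _)
    · have : (0 : ℝ) < ((1 / 2 : ℝ) ^ n) ^ β := by positivity
      exact (ENNReal.ofReal_pos.2 this).ne'
  exact absurd (key n hfin) (not_le.2 hn2)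

end Pool.Agent.L5helper98.FS
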