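import Mathlib

/-!
# The Levy measure of a symmetric stable law (helper98)
-/

set_option autoImplicit false
open MeasureTheory Filter Topology Set
open scoped ENNReal NNReal

namespace Pool.Agent.L5helper98.FS

/-- The density `|x| ^ (-1-α)`. -/
noncomputable def w (α x : ℝ) : ℝ := |x| ^ (-1 - α)

lemma w_nonneg (α x : ℝ) : 0 ≤ w α x := by unfold w; positivity

lemma measurable_w (α : ℝ) : Measurable (w α) := by unfold w; fun_prop

lemma w_neg (α x : ℝ) : w α (-x) = w α x := by unfold w; rw [abs_neg]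

lemma w_mul {a : ℝ} (ha : 0 < a) (α x : ℝ) : w α (a * x) = a ^ (-1 - α) * w α x := by
  unfold w
  rw [abs_mul, abs_of_pos ha, Real.mul_rpow ha.le (abs_nonneg x)]

lemma integrableOn_min_Ioi {α : ℝ} (h0 : 0 < α) (h1 : α < 1) :
    IntegrableOn (fun x => min |x| 1 * w α x) (Ioi 0) := by
  rw [← Ioc_union_Ioi_eq_Ioi (zero_le_one (α := ℝ))]
  apply IntegrableOn.union
  · have h : IntegrableOn (fun x : ℝ => x ^ (-α)) (Ioc 0 1) :=
      (intervalIntegrable_iff_integrableOn_Ioc_of_le zero_le_one).1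
        (intervalIntegral.intervalIntegrable_rpow' (by linarith))
    refine h.congr_fun ?_ measurableSet_Ioc
    intro x hx
    simp only [w]
    rw [abs_of_pos hx.1, min_eq_left hx.2]
    nth_rewrite 2 [← Real.rpow_one x]
    rw [← Real.rpow_add hx.1]
    congr 1
    ring
  · have h : IntegrableOn (fun x : ℝ => x ^ (-1 - α)) (Ioi 1) :=
      integrableOn_Ioi_rpow_of_lt (by linarith) one_pos
    refine h.congr_fun ?_ measurableSet_Ioi
    intro x hx
    have hx' : (1 : ℝ) < x := hx
    simp only [w]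
    rw [abs_of_pos (by linarith), min_eq_right hx'.le, one_mul]

lemma integrable_min {α : ℝ} (h0 : 0 < α) (h1 : α < 1) :
    Integrable (fun x => min |x| 1 * w α x) := by
  rw [← integrableOn_univ, ← Iic_union_Ioi (a := (0 : ℝ))]
  apply IntegrableOn.union
  · have h := integrableOn_min_Ioi h0 h1
    rw [← integrableOn_Ici_iff_integrableOn_Ioi] at h
    have h2 := (Measure.measurePreserving_neg (volume : Measure ℝ)).integrableOn_comp_preimage
      (Homeomorph.neg ℝ).measurableEmbedding (f := fun x => min |x| 1 * w α x) (s := Ici 0)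
    have h3 := h2.2 h
    have h4 : (Neg.neg ⁻¹' Ici (0 : ℝ)) = Iic 0 := by ext x; simp
    rw [h4] at h3
    refine h3.congr_fun ?_ measurableSet_Iic
    intro x _
    simp [w_neg]
  · exact integrableOn_min_Ioi h0 h1

/-- The constant of normalisation. -/
noncomputable def CC (α : ℝ) : ℝ := ∫ x, (1 - Real.cos x) * w α x

lemma one_sub_cos_le (x : ℝ) : 1 - Real.cos x ≤ 2 * min |x| 1 := by
  rcases le_total |x| 1 with h | h
  · rw [min_eq_left h]
    have := Real.one_sub_sq_div_two_le_cos (x := x)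
    have h2 : x ^ 2 = |x| * |x| := by rw [← sq, sq_abs]
    nlinarith [abs_nonneg x]
  · rw [min_eq_right h]
    linarith [Real.neg_one_le_cos x]

lemma integrable_cos {α : ℝ} (h0 : 0 < α) (h1 : α < 1) :
    Integrable (fun x => (1 - Real.cos x) * w α x) := by
  refine Integrable.mono' ((integrable_min h0 h1).const_mul 2) ?_ ?_
  · have := measurable_w α
    apply Measurable.aestronglyMeasurable
    fun_prop
  · refine Filter.Eventually.of_forall fun x => ?_
    rw [Real.norm_eq_abs, abs_of_nonneg (mul_nonneg (by linarith [Real.cos_le_one x])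
      (w_nonneg α x)), ← mul_assoc]
    exact mul_le_mul_of_nonneg_right (one_sub_cos_le x) (w_nonneg α x)

lemma CC_pos {α : ℝ} (h0 : 0 < α) (h1 : α < 1) : 0 < CC α := by
  unfold CC
  rw [integral_pos_iff_support_of_nonneg (fun x => mul_nonneg (by
    linarith [Real.cos_le_one x]) (w_nonneg α x)) (integrable_cos h0 h1)]
  have h : Ioo (0 : ℝ) 1 ⊆ Function.support (fun x => (1 - Real.cos x) * w α x) := by
    intro x hx
    simp only [Function.mem_support, ne_eq]
    have h3 : Real.cos x < 1 := by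
      rw [← Real.cos_zero]
      exact Real.cos_lt_cos_of_nonneg_of_le_pi_div_two le_rfl
        (by linarith [hx.2, Real.pi_gt_three]) hx.1
    have h4 : 0 < w α x := by
      unfold w
      have : 0 < |x| := abs_pos.2 (by linarith [hx.1])
      positivity
    have : 0 < (1 - Real.cos x) * w α x := mul_pos (by linarith) h4
    exact this.ne'
  refine lt_of_lt_of_le ?_ (measure_mono h)
  simp

lemma integral_scale_cos {α : ℝ} (h0 : 0 < α) (θ : ℝ) :
    ∫ x, (1 - Real.cos (θ * x)) * w α x = |θ| ^ α * CC α := by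
  rcases eq_or_ne θ 0 with rfl | hθ
  · simp [Real.zero_rpow h0.ne']
  · have hpos : 0 < |θ| := abs_pos.2 hθ
    have h : ∀ x, (1 - Real.cos (θ * x)) * w α x
        = |θ| ^ (1 + α) * ((fun y => (1 - Real.cos y) * w α y) (|θ| * x)) := by
      intro x
      simp only
      rw [w_mul hpos]
      have h2 : |θ| ^ (1 + α) * |θ| ^ (-1 - α) = 1 := by
        rw [← Real.rpow_add hpos]
        ring_nf
        exact Real.rpow_zero _
      have h3 : Real.cos (|θ| * x) = Real.cos (θ * x) := by
        rcases abs_cases θ with ⟨h, _⟩ | ⟨h, _⟩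
        · rw [h]
        · rw [h, neg_mul, Real.cos_neg]
      rw [h3]
      calc (1 - Real.cos (θ * x)) * w α x
          = (|θ| ^ (1 + α) * |θ| ^ (-1 - α)) * ((1 - Real.cos (θ * x)) * w α x) := by
            rw [h2, one_mul]
        _ = _ := by ring
    simp_rw [h]
    rw [integral_const_mul, Measure.integral_comp_mul_left (fun y => (1 - Real.cos y) * w α y)]
    rw [smul_eq_mul, abs_of_pos (inv_pos.2 hpos), ← mul_assoc]
    unfold CC
    congr 1
    rw [← Real.rpow_neg_one, ← Real.rpow_add hpos]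
    congr 1
    ring

lemma integral_scale_min {α δ : ℝ} (hδ : 0 < δ) :
    ∫ x, min (|x| / δ) 1 * w α x = δ ^ (-α) * ∫ x, min |x| 1 * w α x := by
  have h : ∀ x, min (|x| / δ) 1 * w α x
      = (δ⁻¹) ^ (1 + α) * ((fun y => min |y| 1 * w α y) (δ⁻¹ * x)) := by
    intro x
    have hpos : 0 < δ⁻¹ := inv_pos.2 hδ
    simp only
    rw [w_mul hpos, abs_mul, abs_of_pos hpos]
    have h2 : (δ⁻¹) ^ (1 + α) * (δ⁻¹) ^ (-1 - α) = 1 := by
      rw [← Real.rpow_add hpos]
      ring_nf
      exact Real.rpow_zero _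
    calc min (|x| / δ) 1 * w α x
        = ((δ⁻¹) ^ (1 + α) * (δ⁻¹) ^ (-1 - α)) * (min (δ⁻¹ * |x|) 1 * w α x) := by
          rw [h2, one_mul, div_eq_inv_mul]
      _ = _ := by ring
  simp_rw [h]
  rw [integral_const_mul, Measure.integral_comp_mul_left (fun y => min |y| 1 * w α y)]
  rw [smul_eq_mul, inv_inv, abs_of_pos hδ, ← mul_assoc]
  congr 1
  rw [Real.inv_rpow hδ.le, ← Real.rpow_neg hδ.le]
  nth_rewrite 2 [← Real.rpow_one δ]
  rw [← Real.rpow_add hδ]
  congr 1
  ring

/-- The exponent of the symmetric stable law. -/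
lemma integral_exp_sub_one {α : ℝ} (h0 : 0 < α) (h1 : α < 1) (θ : ℝ) :
    ∫ x, ((w α x : ℝ) : ℂ) * (Complex.exp (((θ * x : ℝ) : ℂ) * Complex.I) - 1)
      = ((-(|θ| ^ α * CC α) : ℝ) : ℂ) := by
  set F : ℝ → ℂ := fun x => ((w α x : ℝ) : ℂ) *
    (Complex.exp (((θ * x : ℝ) : ℂ) * Complex.I) - 1) with hF
  have hFi : Integrable F := by
    refine Integrable.mono' ((integrable_min h0 h1).const_mul (|θ| + 2)) ?_ ?_
    · have := measurable_w α
      apply Measurable.aestronglyMeasurable
      fun_prop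
    · refine Filter.Eventually.of_forall fun x => ?_
      simp only [hF]
      rw [norm_mul, Complex.norm_real, Real.norm_eq_abs, abs_of_nonneg (w_nonneg α x)]
      have e1 : ‖Complex.exp (((θ * x : ℝ) : ℂ) * Complex.I) - 1‖ ≤ |θ| * |x| := by
        have := Real.norm_exp_I_mul_ofReal_sub_one_le (x := θ * x)
        rw [mul_comm Complex.I, Real.norm_eq_abs, abs_mul] at this
        exact this
      have e2 : ‖Complex.exp (((θ * x : ℝ) : ℂ) * Complex.I) - 1‖ ≤ 2 := by
        refine (norm_sub_le _ _).trans ?_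
        rw [Complex.norm_exp_ofReal_mul_I, norm_one]
        norm_num
      have e3 : ‖Complex.exp (((θ * x : ℝ) : ℂ) * Complex.I) - 1‖ ≤ (|θ| + 2) * min |x| 1 := by
        rcases le_total |x| 1 with h10 | h10
        · rw [min_eq_left h10]
          nlinarith [abs_nonneg x, abs_nonneg θ]
        · rw [min_eq_right h10]
          nlinarith [abs_nonneg x, abs_nonneg θ]
      calc w α x * ‖Complex.exp (((θ * x : ℝ) : ℂ) * Complex.I) - 1‖
          ≤ w α x * ((|θ| + 2) * min |x| 1) := mul_le_mul_of_nonneg_left e3 (w_nonneg α x)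
        _ = _ := by ring
  have h2 : ∫ x, F (-x) = ∫ x, F x := integral_neg_eq_self F volume
  have h3 : (∫ x, F x) + ∫ x, F x = ∫ x, (F x + F (-x)) := by
    rw [integral_add hFi hFi.comp_neg, h2]
  have h4 : ∀ x, F x + F (-x) = ((-(2 * ((1 - Real.cos (θ * x)) * w α x)) : ℝ) : ℂ) := by
    intro x
    simp only [hF]
    rw [w_neg]
    have h5 : Complex.exp (((θ * x : ℝ) : ℂ) * Complex.I) +
        Complex.exp (((θ * (-x) : ℝ) : ℂ) * Complex.I) = ((2 * Real.cos (θ * x) : ℝ) : ℂ) := by
      push_cast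
      rw [Complex.cos]
      ring_nf
    push_cast at h5 ⊢
    linear_combination ((w α x : ℝ) : ℂ) * h5
  simp_rw [h4] at h3
  rw [integral_complex_ofReal, integral_neg, integral_const_mul, integral_scale_cos h0] at h3
  have h6 : (2 : ℂ) * ∫ x, F x = 2 * ((-(|θ| ^ α * CC α) : ℝ) : ℂ) := by
    rw [two_mul, h3]
    push_cast
    ring
  exact mul_left_cancel₀ two_ne_zero h6

end Pool.Agent.L5helper98.FS
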