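import Pool.Agent.L5helper98.FS.Process

/-!
# Independent stable increments (helper98)
-/

set_option autoImplicit false
open MeasureTheory ProbabilityTheory Filter Topology Set
open scoped ENNReal NNReal

namespace Pool.Agent.L5helper98.FS

lemma integral_nu {α : ℝ} (h0 : 0 < α) (h1 : α < 1) (θ : ℝ) :
    ∫ x, (Complex.exp (((θ * x : ℝ) : ℂ) * Complex.I) - 1) ∂(nu α)
      = ((-(|θ| ^ α) : ℝ) : ℂ) := by
  unfold nu
  have hC := CC_pos h0 h1
  have := measurable_w α
  rw [integral_withDensity_eq_integral_toReal_smul (by fun_prop)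
    (Filter.Eventually.of_forall fun x => ENNReal.ofReal_lt_top)]
  have h2 : ∀ x, (ENNReal.ofReal ((CC α)⁻¹ * w α x)).toReal •
      (Complex.exp (((θ * x : ℝ) : ℂ) * Complex.I) - 1)
      = (((CC α)⁻¹ : ℝ) : ℂ) * (((w α x : ℝ) : ℂ) *
        (Complex.exp (((θ * x : ℝ) : ℂ) * Complex.I) - 1)) := by
    intro x
    rw [ENNReal.toReal_ofReal (mul_nonneg (inv_nonneg.2 hC.le) (w_nonneg α x)), Complex.real_smul]
    push_cast
    ring
  simp_rw [h2]
  rw [integral_const_mul, integral_exp_sub_one h0 h1, ← Complex.ofReal_mul]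
  congr 1
  field_simp

lemma integral_QQ {α : ℝ} (h0 : 0 < α) (h1 : α < 1) (θ : ℝ) {s t : ℝ} (hs : 0 ≤ s)
    (hst : s ≤ t) :
    ∫ p, (Complex.exp (((θ * ff s t p : ℝ) : ℂ) * Complex.I) - 1) ∂(QQ α)
      = ((-(t - s) * |θ| ^ α : ℝ) : ℂ) := by
  have h2 : ∀ p : ℝ × ℝ, (Complex.exp (((θ * ff s t p : ℝ) : ℂ) * Complex.I) - 1)
      = (Ioc s t).indicator (fun _ => (1 : ℂ)) p.1 *
        (Complex.exp (((θ * p.2 : ℝ) : ℂ) * Complex.I) - 1) := by
    intro p
    unfold ff
    by_cases h : p.1 ∈ Ioc s t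
    · rw [indicator_of_mem h, indicator_of_mem h, one_mul]
    · rw [indicator_of_notMem h, indicator_of_notMem h]
      simp
  simp_rw [h2]
  unfold QQ
  rw [integral_prod_mul (fun u => (Ioc s t).indicator (fun _ => (1 : ℂ)) u)
    (fun x => Complex.exp (((θ * x : ℝ) : ℂ) * Complex.I) - 1), integral_nu h0 h1]
  rw [integral_indicator_const _ measurableSet_Ioc]
  have h3 : (volume.restrict (Ioi (0 : ℝ))).real (Ioc s t) = t - s := by
    rw [measureReal_restrict_apply measurableSet_Ioc]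
    have : Ioc s t ∩ Ioi 0 = Ioc s t := by
      apply inter_eq_left.2
      intro x hx
      exact lt_of_le_of_lt hs hx.1
    rw [this, Real.volume_real_Ioc_of_le hst]
  rw [h3]
  simp only [Complex.real_smul]
  push_cast
  ring

lemma charFun_incr {α : ℝ} (h0 : 0 < α) (h1 : α < 1) (s t : ℝ) (hs : 0 ≤ s)
    (hst : s ≤ t) (ξ : ℝ) :
    ∫ ω, Complex.exp (((ξ * (XX t ω - XX s ω) : ℝ) : ℂ) * Complex.I) ∂(PP (QQ α))
      = ((Real.exp (-(t - s) * |ξ| ^ α) : ℝ) : ℂ) := by
  rw [integral_congr_ae (g := fun ω => Complex.exp (((ξ * ∫ p, ff s t p ∂(M ω) : ℝ) : ℂ) *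
    Complex.I))]
  · rw [charFun_M (QQ α) (measurable_ff s t) (lintegral_ff_min h0 h1 hs), integral_QQ h0 h1 ξ hs hst]
    rw [Complex.ofReal_exp]
  · filter_upwards [ae_good h0 h1] with ω hω
    rw [hω.XX_sub hs hst]

lemma ff_disjoint {n : ℕ} {t : Fin (n + 1) → ℝ} (ht : StrictMono t) {i j : Fin n}
    (hij : i ≠ j) {p : ℝ × ℝ} (hp : p.1 ∈ Ioc (t i.castSucc) (t i.succ)) :
    ff (t j.castSucc) (t j.succ) p = 0 := by
  unfold ff
  apply indicator_of_notMem
  intro hj
  rcases lt_or_gt_of_ne hij with h | h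
  · have h2 : i.succ ≤ j.castSucc := by
      rw [Fin.le_def]
      simp only [Fin.val_succ, Fin.val_castSucc]
      exact h
    have := ht.monotone h2
    linarith [hp.2, hj.1]
  · have h2 : j.succ ≤ i.castSucc := by
      rw [Fin.le_def]
      simp only [Fin.val_succ, Fin.val_castSucc]
      exact h
    have := ht.monotone h2
    linarith [hj.2, hp.1]

lemma exp_sum_ff {n : ℕ} {t : Fin (n + 1) → ℝ} (ht : StrictMono t) (θ : Fin n → ℝ)
    (p : ℝ × ℝ) :
    Complex.exp (((∑ i : Fin n, θ i * ff (t i.castSucc) (t i.succ) p : ℝ) : ℂ) * Complex.I) - 1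
      = ∑ i : Fin n,
        (Complex.exp (((θ i * ff (t i.castSucc) (t i.succ) p : ℝ) : ℂ) * Complex.I) - 1) := by
  by_cases h : ∃ i : Fin n, p.1 ∈ Ioc (t i.castSucc) (t i.succ)
  · obtain ⟨i, hi⟩ := h
    rw [Finset.sum_eq_single i, Finset.sum_eq_single i]
    · intro j _ hj
      rw [ff_disjoint ht hj.symm hi]
      simp
    · intro h; exact absurd (Finset.mem_univ i) h
    · intro j _ hj
      rw [ff_disjoint ht hj.symm hi]
      simp
    · intro h; exact absurd (Finset.mem_univ i) h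
  · push Not at h
    have h2 : ∀ i : Fin n, ff (t i.castSucc) (t i.succ) p = 0 := fun i =>
      indicator_of_notMem (h i) _
    simp [h2]

lemma lintegral_sum_ff_min {α : ℝ} (h0 : 0 < α) (h1 : α < 1) {n : ℕ} {t : Fin (n + 1) → ℝ}
    (ht0 : 0 ≤ t 0) (ht : StrictMono t) (θ : Fin n → ℝ) :
    ∫⁻ p, min ‖∑ i : Fin n, θ i * ff (t i.castSucc) (t i.succ) p‖ₑ 1 ∂(QQ α) ≠ ∞ := by
  have hpt : ∀ i : Fin n, 0 ≤ t i.castSucc := fun i => ht0.trans (ht.monotone (Fin.zero_le _))
  have h2 : ∀ p : ℝ × ℝ, min ‖∑ i : Fin n, θ i * ff (t i.castSucc) (t i.succ) p‖ₑ 1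
      ≤ ∑ i : Fin n, (‖θ i‖ₑ + 1) * min ‖ff (t i.castSucc) (t i.succ) p‖ₑ 1 := by
    intro p
    by_cases h : ∃ i : Fin n, p.1 ∈ Ioc (t i.castSucc) (t i.succ)
    · obtain ⟨i, hi⟩ := h
      rw [Finset.sum_eq_single i]
      · refine le_trans ?_ (Finset.single_le_sum (f := fun i : Fin n =>
          (‖θ i‖ₑ + 1) * min ‖ff (t i.castSucc) (t i.succ) p‖ₑ 1) (fun _ _ => zero_le)
          (Finset.mem_univ i))
        rw [enorm_mul]
        rcases le_total ‖ff (t i.castSucc) (t i.succ) p‖ₑ 1 with h3 | h3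
        · rw [min_eq_left h3]
          refine (min_le_left _ _).trans ?_
          gcongr
          exact le_self_add
        · rw [min_eq_right h3]
          refine (min_le_right _ _).trans ?_
          rw [mul_one]
          exact le_add_self
      · intro j _ hj
        rw [ff_disjoint ht hj.symm hi, mul_zero]
      · intro h; exact absurd (Finset.mem_univ i) h
    · push Not at h
      have h2 : ∀ i : Fin n, ff (t i.castSucc) (t i.succ) p = 0 := fun i =>
        indicator_of_notMem (h i) _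
      simp [h2]
  refine ne_top_of_le_ne_top ?_ (lintegral_mono h2)
  rw [lintegral_finsetSum]
  · rw [ENNReal.sum_ne_top]
    intro i _
    rw [lintegral_const_mul]
    · exact ENNReal.mul_ne_top (by simp) (lintegral_ff_min h0 h1 (hpt i))
    · have := measurable_ff (t i.castSucc) (t i.succ)
      fun_prop
  · intro i _
    have := measurable_ff (t i.castSucc) (t i.succ)
    fun_prop

lemma indep_incr {α : ℝ} (h0 : 0 < α) (h1 : α < 1) (n : ℕ) (t : Fin (n + 1) → ℝ)
    (ht0 : 0 ≤ t 0) (ht : StrictMono t) :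
    iIndepFun (fun (i : Fin n) (ω : Om) => XX (t i.succ) ω - XX (t i.castSucc) ω)
      (PP (QQ α)) := by
  have hpt : ∀ i : Fin n, 0 ≤ t i.castSucc := fun i => ht0.trans (ht.monotone (Fin.zero_le _))
  have hlt : ∀ i : Fin n, t i.castSucc ≤ t i.succ := fun i =>
    ht.monotone (Fin.castSucc_lt_succ).le
  have hm : ∀ i : Fin n, Measurable (fun ω : Om => XX (t i.succ) ω - XX (t i.castSucc) ω) :=
    fun i => (measurable_XX _).sub (measurable_XX _)
  rw [iIndepFun_iff_charFun_pi (fun i => (hm i).aemeasurable)]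
  intro θ
  have hR : ∀ i : Fin n, charFun ((PP (QQ α)).map
      (fun ω : Om => XX (t i.succ) ω - XX (t i.castSucc) ω)) (θ i)
      = ((Real.exp (-(t i.succ - t i.castSucc) * |θ i| ^ α) : ℝ) : ℂ) := by
    intro i
    rw [charFun_apply_real, integral_map (hm i).aemeasurable (by fun_prop),
      ← charFun_incr h0 h1 _ _ (hpt i) (hlt i)]
    simp only [Complex.ofReal_mul]
  rw [Finset.prod_congr rfl (fun i _ => hR i)]
  have hmt : Measurable (fun ω : Om => WithLp.toLp 2
      (fun i : Fin n => XX (t i.succ) ω - XX (t i.castSucc) ω)) :=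
    (WithLp.measurable_toLp 2 _).comp (measurable_pi_lambda _ hm)
  rw [charFun_apply, integral_map hmt.aemeasurable (by fun_prop)]
  have hms : Measurable (fun p : ℝ × ℝ => ∑ i : Fin n, θ i * ff (t i.castSucc) (t i.succ) p) :=
    Finset.measurable_sum _ (fun i _ => (measurable_ff _ _).const_mul _)
  rw [integral_congr_ae (g := fun ω => Complex.exp (((1 * ∫ p, ∑ i : Fin n, θ i *
    ff (t i.castSucc) (t i.succ) p ∂(M ω) : ℝ) : ℂ) * Complex.I))]
  · rw [charFun_M (QQ α) hms (lintegral_sum_ff_min h0 h1 ht0 ht _)]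
    simp only [one_mul]
    simp_rw [exp_sum_ff ht]
    rw [integral_finsetSum]
    · rw [Finset.sum_congr rfl (fun i _ => integral_QQ h0 h1 (θ i) (hpt i) (hlt i)),
        Complex.exp_sum]
      refine Finset.prod_congr rfl fun i _ => ?_
      rw [Complex.ofReal_exp]
    · intro i _
      exact integrable_exp_sub_one (QQ α) (measurable_ff _ _)
        (lintegral_ff_min h0 h1 (hpt i)) (θ i)
  · filter_upwards [ae_good h0 h1] with ω hω
    rw [integral_finsetSum _ (fun i _ => (hω.integrable (hpt i) _).const_mul _)]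
    simp_rw [integral_const_mul]
    rw [one_mul, PiLp.inner_apply]
    congr 3
    refine Finset.sum_congr rfl fun i _ => ?_
    simp only
    rw [hω.XX_sub (hpt i) (hlt i)]
    simp

end Pool.Agent.L5helper98.FS
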