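import Mathlib

/-!
# Poisson random measures (helper98)

A Poisson random measure with an arbitrary s-finite intensity, its mean and its characteristic
functional.
-/

set_option autoImplicit false
open MeasureTheory ProbabilityTheory Filter Topology Finset
open scoped ENNReal NNReal

namespace Pool.Agent.L5helper98.FS

variable {E : Type} [MeasurableSpace E]

/-- A finite measure divided by its mass. -/
noncomputable def nrm [Inhabited E] (κ : Measure E) : Measure E :=
  if κ Set.univ = 0 then Measure.dirac default else (κ Set.univ)⁻¹ • κ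

instance [Inhabited E] (κ : Measure E) [IsFiniteMeasure κ] : IsProbabilityMeasure (nrm κ) := by
  unfold nrm
  split_ifs with h
  · infer_instance
  · constructor
    simp only [Measure.smul_apply, smul_eq_mul]
    exact ENNReal.inv_mul_cancel h (measure_ne_top _ _)

lemma smul_nrm [Inhabited E] (κ : Measure E) [IsFiniteMeasure κ] :
    (κ Set.univ) • nrm κ = κ := by
  unfold nrm
  split_ifs with h
  · rw [h, zero_smul]
    exact (Measure.measure_univ_eq_zero.1 h).symm
  · rw [smul_smul, ENNReal.mul_inv_cancel h (measure_ne_top _ _), one_smul]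

/-- The law of the number of points and of the sequence of points. -/
noncomputable def blk [Inhabited E] (κ : Measure E) [IsFiniteMeasure κ] :
    Measure (ℕ × (ℕ → E)) :=
  (poissonMeasure (κ Set.univ).toNNReal).prod (Measure.infinitePi fun _ : ℕ => nrm κ)

instance [Inhabited E] (κ : Measure E) [IsFiniteMeasure κ] : IsProbabilityMeasure (blk κ) := by
  unfold blk; infer_instance

/-- The mean of the Poisson law. -/
lemma lintegral_poisson (r : ℝ≥0) : ∫⁻ n : ℕ, (n : ℝ≥0∞) ∂(poissonMeasure r) = r := by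
  unfold poissonMeasure
  rw [lintegral_sum_measure]
  simp only [lintegral_smul_measure, lintegral_dirac, smul_eq_mul]
  rw [tsum_eq_zero_add' ENNReal.summable]
  simp only [Nat.cast_zero, mul_zero, zero_add]
  have h : ∀ n : ℕ, ENNReal.ofReal (Real.exp (-r) * r ^ (n + 1) / ((n + 1).factorial : ℝ)) *
      ((n + 1 : ℕ) : ℝ≥0∞) = (r : ℝ≥0∞) *
        ENNReal.ofReal (Real.exp (-r) * r ^ n / (n.factorial : ℝ)) := by
    intro n
    rw [← ENNReal.ofReal_natCast, ← ENNReal.ofReal_mul (by positivity)]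
    rw [← ENNReal.ofReal_coe_nnreal, ← ENNReal.ofReal_mul (by positivity)]
    congr 1
    rw [Nat.factorial_succ]
    push_cast
    field_simp
    try ring
  simp_rw [h]
  rw [ENNReal.tsum_mul_left, ← ENNReal.ofReal_tsum_of_nonneg (fun n => by positivity)
    (hasSum_one_poissonMeasure r).summable, (hasSum_one_poissonMeasure r).tsum_eq]
  simp

lemma lintegral_blk [Inhabited E] (κ : Measure E) [IsFiniteMeasure κ] {f : E → ℝ≥0∞}
    (hf : Measurable f) :
    ∫⁻ x, ∑ i ∈ range x.1, f (x.2 i) ∂(blk κ) = ∫⁻ p, f p ∂κ := by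
  unfold blk
  have hm : Measurable (fun x : ℕ × (ℕ → E) => ∑ i ∈ range x.1, f (x.2 i)) := by
    apply measurable_from_prod_countable_right
    intro n
    simp only
    fun_prop
  rw [lintegral_prod _ hm.aemeasurable]
  have h1 : ∀ n : ℕ, ∫⁻ y, ∑ i ∈ range n, f (y i) ∂(Measure.infinitePi fun _ : ℕ => nrm κ)
      = (n : ℝ≥0∞) * ∫⁻ p, f p ∂(nrm κ) := by
    intro n
    rw [lintegral_finsetSum _ (fun i _ => by fun_prop)]
    have : ∀ i : ℕ, ∫⁻ y, f (y i) ∂(Measure.infinitePi fun _ : ℕ => nrm κ)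
        = ∫⁻ p, f p ∂(nrm κ) := by
      intro i
      have := (measurePreserving_eval_infinitePi (fun _ : ℕ => nrm κ) i).lintegral_comp hf
      simpa using this
    simp [this]
  simp only [h1]
  rw [lintegral_mul_const _ (by fun_prop), lintegral_poisson]
  rw [ENNReal.coe_toNNReal (measure_ne_top _ _)]
  conv_rhs => rw [← smul_nrm κ]
  rw [lintegral_smul_measure, smul_eq_mul]

/-- The characteristic function of a block. -/
lemma charFun_blk [Inhabited E] (κ : Measure E) [IsFiniteMeasure κ] {f : E → ℝ}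
    (hf : Measurable f) (t : ℝ) :
    ∫ x, Complex.exp (((t * ∑ i ∈ range x.1, f (x.2 i) : ℝ) : ℂ) * Complex.I) ∂(blk κ)
      = Complex.exp (∫ p, (Complex.exp (((t * f p : ℝ) : ℂ) * Complex.I) - 1) ∂κ) := by
  have hm : Measurable (fun x : ℕ × (ℕ → E) => ∑ i ∈ range x.1, f (x.2 i)) := by
    apply measurable_from_prod_countable_right
    intro n
    simp only
    fun_prop
  have hb : Integrable (fun x : ℕ × (ℕ → E) =>
      Complex.exp (((t * ∑ i ∈ range x.1, f (x.2 i) : ℝ) : ℂ) * Complex.I)) (blk κ) := by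
    refine Integrable.of_bound (C := 1) ?_ ?_
    · apply Measurable.aestronglyMeasurable
      fun_prop
    · exact Filter.Eventually.of_forall fun x => (Complex.norm_exp_ofReal_mul_I _).le
  unfold blk at hb ⊢
  rw [integral_prod _ hb]
  set φ : ℂ := ∫ p, Complex.exp (((t * f p : ℝ) : ℂ) * Complex.I) ∂(nrm κ) with hφ
  have hmi : ∀ i : ℕ, Measurable (fun y : ℕ → E => f (y i)) := fun i =>
    hf.comp (measurable_pi_apply i)
  have h1 : ∀ n : ℕ, ∫ y, Complex.exp (((t * ∑ i ∈ range n, f (y i) : ℝ) : ℂ) * Complex.I)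
      ∂(Measure.infinitePi fun _ : ℕ => nrm κ) = φ ^ n := by
    intro n
    have hind : iIndepFun (fun (i : ℕ) (y : ℕ → E) => f (y i))
        (Measure.infinitePi fun _ : ℕ => nrm κ) :=
      iIndepFun_infinitePi (X := fun _ => f) (fun _ => hf)
    have h2 := iIndepFun.charFun_map_fun_sum_eq_prod (ι := (range n : Finset ℕ))
      (X := fun i (y : ℕ → E) => f (y i)) (fun i => (hmi i).aemeasurable)
      (hind.precomp (g := fun x : (range n : Finset ℕ) => (x : ℕ)) Subtype.val_injective)
    have h3 := congrFun h2 t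
    have hms : Measurable (fun y : ℕ → E => ∑ i : (range n : Finset ℕ), f (y i)) :=
      Finset.measurable_sum _ (fun i _ => hmi i)
    rw [charFun_apply_real, integral_map hms.aemeasurable (by fun_prop)] at h3
    have h4 : ∀ i : ℕ, charFun ((Measure.infinitePi fun _ : ℕ => nrm κ).map
        (fun y : ℕ → E => f (y i))) t = φ := by
      intro i
      rw [charFun_apply_real, integral_map (hmi i).aemeasurable (by fun_prop), hφ]
      have h5 := (measurePreserving_eval_infinitePi (fun _ : ℕ => nrm κ) i)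
      conv_rhs => rw [← h5.map_eq]
      rw [integral_map (measurable_pi_apply i).aemeasurable (by
        apply Measurable.aestronglyMeasurable; fun_prop)]
      simp only [Complex.ofReal_mul]
    rw [Finset.prod_apply] at h3
    rw [Finset.prod_congr rfl (fun (i : (range n : Finset ℕ)) _ => h4 i)] at h3
    rw [Finset.prod_const] at h3
    simp only [card_univ, Fintype.card_coe, card_range] at h3
    rw [← h3]
    congr 1
    funext y
    rw [← Finset.sum_coe_sort (range n) (fun i => f (y i))]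
    push_cast
    rfl
  simp only [h1]
  rw [integral_poissonMeasure]
  set r : ℝ≥0 := (κ Set.univ).toNNReal with hr
  have h5 : ∀ n : ℕ, (Real.exp (-r) * r ^ n / (n.factorial : ℝ)) • φ ^ n
      = ((Real.exp (-r) : ℝ) : ℂ) * ((r * φ) ^ n / (n.factorial : ℂ)) := by
    intro n
    rw [Complex.real_smul]
    push_cast
    rw [mul_pow]
    ring
  simp_rw [h5]
  rw [tsum_mul_left, (NormedSpace.expSeries_div_hasSum_exp ((r : ℂ) * φ)).tsum_eq,
    ← Complex.exp_eq_exp_ℂ, Complex.ofReal_exp, ← Complex.exp_add]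
  congr 1
  have hi : Integrable (fun p => Complex.exp (((t * f p : ℝ) : ℂ) * Complex.I)) (nrm κ) := by
    refine Integrable.of_bound (C := 1) ?_ ?_
    · apply Measurable.aestronglyMeasurable
      fun_prop
    · exact Filter.Eventually.of_forall fun x => (Complex.norm_exp_ofReal_mul_I _).le
  conv_rhs => rw [← smul_nrm κ]
  rw [integral_smul_measure, integral_sub hi (integrable_const _), ← hφ]
  simp only [integral_const, probReal_univ, one_smul]
  rw [Complex.real_smul]
  have : ((r : ℝ) : ℂ) = (((κ Set.univ).toReal : ℝ) : ℂ) := rfl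
  rw [← this]
  push_cast
  ring

/-! ### The random measure -/

section Full

/-- The probability space. -/
noncomputable def PP [Inhabited E] (Q : Measure E) [SFinite Q] : Measure (ℕ → ℕ × (ℕ → E)) :=
  Measure.infinitePi fun j : ℕ => blk (sfiniteSeq Q j)

instance [Inhabited E] (Q : Measure E) [SFinite Q] : IsProbabilityMeasure (PP Q) := by
  unfold PP; infer_instance

/-- The points of the block `j`. -/
noncomputable def Mj (ω : ℕ → ℕ × (ℕ → E)) (j : ℕ) : Measure E :=
  ∑ i ∈ range (ω j).1, Measure.dirac ((ω j).2 i)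

/-- The random measure. -/
noncomputable def M (ω : ℕ → ℕ × (ℕ → E)) : Measure E := Measure.sum (Mj ω)

instance (ω : ℕ → ℕ × (ℕ → E)) (j : ℕ) : IsFiniteMeasure (Mj ω j) := by
  unfold Mj; infer_instance

lemma lintegral_Mj (ω : ℕ → ℕ × (ℕ → E)) (j : ℕ) {f : E → ℝ≥0∞} (hf : Measurable f) :
    ∫⁻ p, f p ∂(Mj ω j) = ∑ i ∈ range (ω j).1, f ((ω j).2 i) := by
  unfold Mj
  rw [lintegral_finsetSum_measure]
  refine Finset.sum_congr rfl fun i _ => ?_
  rw [lintegral_dirac' _ hf]

lemma lintegral_M (ω : ℕ → ℕ × (ℕ → E)) {f : E → ℝ≥0∞} (hf : Measurable f) :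
    ∫⁻ p, f p ∂(M ω) = ∑' j, ∑ i ∈ range (ω j).1, f ((ω j).2 i) := by
  unfold M
  rw [lintegral_sum_measure]
  simp_rw [lintegral_Mj ω _ hf]

lemma measurable_blkSum {F : Type} [AddCommMonoid F] [MeasurableSpace F] [MeasurableAdd₂ F]
    {f : E → F} (hf : Measurable f) :
    Measurable (fun x : ℕ × (ℕ → E) => ∑ i ∈ range x.1, f (x.2 i)) := by
  apply measurable_from_prod_countable_right
  intro n
  simp only
  exact Finset.measurable_sum _ (fun i _ => hf.comp (measurable_pi_apply i))

lemma measurable_lintegral_M {f : E → ℝ≥0∞} (hf : Measurable f) :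
    Measurable (fun ω : ℕ → ℕ × (ℕ → E) => ∫⁻ p, f p ∂(M ω)) := by
  simp_rw [lintegral_M _ hf]
  apply Measurable.tsum
  intro j
  exact (measurable_blkSum hf).comp (measurable_pi_apply j)

lemma lintegral_lintegral_M [Inhabited E] (Q : Measure E) [SFinite Q] {f : E → ℝ≥0∞} (hf : Measurable f) :
    ∫⁻ ω, ∫⁻ p, f p ∂(M ω) ∂(PP Q) = ∫⁻ p, f p ∂Q := by
  simp_rw [lintegral_M _ hf]
  have hmj : ∀ j : ℕ, Measurable (fun ω : ℕ → ℕ × (ℕ → E) =>
      ∑ i ∈ range (ω j).1, f ((ω j).2 i)) := fun j =>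
    (measurable_blkSum hf).comp (measurable_pi_apply j)
  rw [lintegral_tsum (fun j => (hmj j).aemeasurable)]
  have h : ∀ j : ℕ, ∫⁻ ω, ∑ i ∈ range (ω j).1, f ((ω j).2 i) ∂(PP Q)
      = ∫⁻ p, f p ∂(sfiniteSeq Q j) := by
    intro j
    rw [← lintegral_blk _ hf]
    exact (measurePreserving_eval_infinitePi (fun j : ℕ => blk (sfiniteSeq Q j)) j).lintegral_comp
      (measurable_blkSum hf)
  simp_rw [h]
  rw [← lintegral_sum_measure, sum_sfiniteSeq]

/-- A set of positive mass has mass at least one. -/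
lemma one_le_M (ω : ℕ → ℕ × (ℕ → E)) {A : Set E} (hA : MeasurableSet A) (h : M ω A ≠ 0) :
    1 ≤ M ω A := by
  have h1 : M ω A = ∑' j, ∑ i ∈ range (ω j).1, A.indicator 1 ((ω j).2 i) := by
    rw [← lintegral_M ω (measurable_one.indicator hA), lintegral_indicator_one hA]
  rw [h1] at h ⊢
  rw [ne_eq, ENNReal.tsum_eq_zero, not_forall] at h
  obtain ⟨j, hj⟩ := h
  obtain ⟨i, hi, hi'⟩ := Finset.exists_ne_zero_of_sum_ne_zero hj
  have h2 : A.indicator (1 : E → ℝ≥0∞) ((ω j).2 i) = 1 := by
    by_cases hmem : (ω j).2 i ∈ A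
    · simp [hmem]
    · simp [hmem] at hi'
  calc (1 : ℝ≥0∞) = A.indicator (1 : E → ℝ≥0∞) ((ω j).2 i) := h2.symm
    _ ≤ ∑ i ∈ range (ω j).1, A.indicator (1 : E → ℝ≥0∞) ((ω j).2 i) :=
      Finset.single_le_sum (f := fun i => A.indicator (1 : E → ℝ≥0∞) ((ω j).2 i))
        (fun _ _ => zero_le) hi
    _ ≤ _ := ENNReal.le_tsum j

/-- Integrability of `min |f| 1` implies integrability of `f` for the random measure. -/
lemma integrable_of_min (ω : ℕ → ℕ × (ℕ → E)) {f : E → ℝ} (hf : Measurable f)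
    (h : ∫⁻ p, min ‖f p‖ₑ 1 ∂(M ω) ≠ ∞) : Integrable f (M ω) := by
  refine ⟨hf.aestronglyMeasurable, ?_⟩
  unfold HasFiniteIntegral
  have hm1 : Measurable (fun p => min ‖f p‖ₑ 1) := by fun_prop
  have hm2 : Measurable (fun p => ‖f p‖ₑ) := by fun_prop
  rw [lintegral_M ω hm1] at h
  rw [lintegral_M ω hm2]
  set a : ℕ → ℝ≥0∞ := fun j => ∑ i ∈ range (ω j).1, min ‖f ((ω j).2 i)‖ₑ 1 with ha
  set b : ℕ → ℝ≥0∞ := fun j => ∑ i ∈ range (ω j).1, ‖f ((ω j).2 i)‖ₑ with hb
  have hfin : {j | 1 ≤ a j}.Finite := ENNReal.finite_const_le_of_tsum_ne_top h one_ne_zero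
  have hle : ∀ j, b j ≤ a j + (hfin.toFinset : Set ℕ).indicator b j := by
    intro j
    by_cases hj : j ∈ (hfin.toFinset : Set ℕ)
    · rw [Set.indicator_of_mem hj]
      exact le_add_self
    · rw [Set.indicator_of_notMem hj, add_zero]
      have hj' : a j < 1 := by
        simpa using hj
      simp only [ha, hb]
      refine Finset.sum_le_sum fun i hi => ?_
      have h3 : min ‖f ((ω j).2 i)‖ₑ 1 < 1 :=
        lt_of_le_of_lt (Finset.single_le_sum (f := fun i => min ‖f ((ω j).2 i)‖ₑ 1)
          (fun _ _ => zero_le) hi) hj'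
      rcases min_lt_iff.1 h3 with h4 | h4
      · rw [min_eq_left h4.le]
      · exact absurd h4 (lt_irrefl _)
  calc ∑' j, b j ≤ ∑' j, (a j + (hfin.toFinset : Set ℕ).indicator b j) := ENNReal.tsum_le_tsum hle
    _ = ∑' j, a j + ∑' j, (hfin.toFinset : Set ℕ).indicator b j := ENNReal.tsum_add
    _ = ∑' j, a j + ∑ j ∈ hfin.toFinset, b j := by
      congr 1
      rw [tsum_eq_sum (s := hfin.toFinset)]
      · refine Finset.sum_congr rfl fun j hj => ?_
        rw [Set.indicator_of_mem (by exact_mod_cast hj)]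
      · intro j hj
        rw [Set.indicator_of_notMem (by exact_mod_cast hj)]
    _ < ∞ := by
      rw [ENNReal.add_lt_top]
      refine ⟨lt_top_iff_ne_top.2 h, ?_⟩
      rw [ENNReal.sum_lt_top]
      intro j _
      simp only [hb]
      rw [ENNReal.sum_lt_top]
      intro i _
      exact enorm_lt_top

lemma ae_integrable [Inhabited E] (Q : Measure E) [SFinite Q] {f : E → ℝ} (hf : Measurable f)
    (h : ∫⁻ p, min ‖f p‖ₑ 1 ∂Q ≠ ∞) : ∀ᵐ ω ∂(PP Q), Integrable f (M ω) := by
  have hm1 : Measurable (fun p => min ‖f p‖ₑ 1) := by fun_prop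
  rw [← lintegral_lintegral_M Q hm1] at h
  filter_upwards [ae_lt_top (measurable_lintegral_M hm1) h] with ω hω
  exact integrable_of_min ω hf hω.ne

lemma integral_Mj (ω : ℕ → ℕ × (ℕ → E)) (j : ℕ) {f : E → ℝ} (hf : Measurable f) :
    ∫ p, f p ∂(Mj ω j) = ∑ i ∈ range (ω j).1, f ((ω j).2 i) := by
  unfold Mj
  rw [integral_finsetSum_measure]
  · refine Finset.sum_congr rfl fun i _ => ?_
    rw [integral_dirac' _ _ hf.stronglyMeasurable]
  · intro i _
    exact ⟨hf.aestronglyMeasurable, by
      unfold HasFiniteIntegral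
      rw [lintegral_dirac' _ (by fun_prop)]
      exact enorm_lt_top⟩

lemma integrable_exp_sub_one (Q : Measure E) {f : E → ℝ} (hf : Measurable f)
    (h : ∫⁻ p, min ‖f p‖ₑ 1 ∂Q ≠ ∞) (t : ℝ) :
    Integrable (fun p => Complex.exp (((t * f p : ℝ) : ℂ) * Complex.I) - 1) Q := by
  have hm1 : Measurable (fun p => min ‖f p‖ₑ 1) := by fun_prop
  have h9 : Integrable (fun p => min |f p| 1) Q := by
    refine ⟨by apply Measurable.aestronglyMeasurable; fun_prop, ?_⟩
    unfold HasFiniteIntegral
    refine lt_of_le_of_lt (le_of_eq ?_) (lt_top_iff_ne_top.2 h)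
    refine lintegral_congr fun p => ?_
    have : (0 : ℝ) ≤ min |f p| 1 := by positivity
    rw [Real.enorm_of_nonneg this, ENNReal.ofReal_min, ENNReal.ofReal_one]
    rw [Real.enorm_eq_ofReal_abs]
  refine Integrable.mono' (h9.const_mul (|t| + 2)) ?_ ?_
  · apply Measurable.aestronglyMeasurable
    fun_prop
  · refine Filter.Eventually.of_forall fun p => ?_
    have e1 : ‖Complex.exp (((t * f p : ℝ) : ℂ) * Complex.I) - 1‖ ≤ |t| * |f p| := by
      have := Real.norm_exp_I_mul_ofReal_sub_one_le (x := t * f p)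
      rw [mul_comm Complex.I, Real.norm_eq_abs, abs_mul] at this
      exact this
    have e2 : ‖Complex.exp (((t * f p : ℝ) : ℂ) * Complex.I) - 1‖ ≤ 2 := by
      refine (norm_sub_le _ _).trans ?_
      rw [Complex.norm_exp_ofReal_mul_I, norm_one]
      norm_num
    rcases le_total |f p| 1 with h10 | h10
    · rw [min_eq_left h10]
      nlinarith [abs_nonneg (f p), abs_nonneg t]
    · rw [min_eq_right h10]
      nlinarith [abs_nonneg (f p), abs_nonneg t]

/-- The characteristic functional. -/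
lemma charFun_M [Inhabited E] (Q : Measure E) [SFinite Q] {f : E → ℝ} (hf : Measurable f)
    (h : ∫⁻ p, min ‖f p‖ₑ 1 ∂Q ≠ ∞) (t : ℝ) :
    ∫ ω, Complex.exp (((t * ∫ p, f p ∂(M ω) : ℝ) : ℂ) * Complex.I) ∂(PP Q)
      = Complex.exp (∫ p, (Complex.exp (((t * f p : ℝ) : ℂ) * Complex.I) - 1) ∂Q) := by
  set Y : ℕ → (ℕ → ℕ × (ℕ → E)) → ℝ := fun j ω => ∑ i ∈ range (ω j).1, f ((ω j).2 i) with hY
  have hYm : ∀ j, Measurable (Y j) := fun j =>
    (measurable_blkSum hf).comp (measurable_pi_apply j)
  -- characteristic functions of the truncations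
  have hind : iIndepFun Y (PP Q) :=
    iIndepFun_infinitePi (X := fun _ (x : ℕ × (ℕ → E)) => ∑ i ∈ range x.1, f (x.2 i))
      (fun _ => measurable_blkSum hf)
  have h4 : ∀ j : ℕ, charFun ((PP Q).map (Y j)) t
      = Complex.exp (∫ p, (Complex.exp (((t * f p : ℝ) : ℂ) * Complex.I) - 1)
        ∂(sfiniteSeq Q j)) := by
    intro j
    rw [charFun_apply_real, integral_map (hYm j).aemeasurable (by fun_prop), ← charFun_blk _ hf]
    have h5 := (measurePreserving_eval_infinitePi (fun j : ℕ => blk (sfiniteSeq Q j)) j)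
    conv_rhs => rw [← h5.map_eq]
    rw [integral_map (measurable_pi_apply j).aemeasurable (by
      apply Measurable.aestronglyMeasurable
      have := measurable_blkSum (E := E) hf
      fun_prop)]
    simp only [Complex.ofReal_mul]
    rfl
  have h1 : ∀ n : ℕ, ∫ ω, Complex.exp (((t * ∑ j ∈ range n, Y j ω : ℝ) : ℂ) * Complex.I) ∂(PP Q)
      = Complex.exp (∑ j ∈ range n, ∫ p, (Complex.exp (((t * f p : ℝ) : ℂ) * Complex.I) - 1)
        ∂(sfiniteSeq Q j)) := by
    intro n
    have h2 := iIndepFun.charFun_map_fun_sum_eq_prod (ι := (range n : Finset ℕ))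
      (X := fun i ω => Y i ω) (fun i => (hYm i).aemeasurable)
      (hind.precomp (g := fun x : (range n : Finset ℕ) => (x : ℕ)) Subtype.val_injective)
    have h3 := congrFun h2 t
    have hms : Measurable (fun ω => ∑ i : (range n : Finset ℕ), Y i ω) :=
      Finset.measurable_sum _ (fun i _ => hYm i)
    rw [charFun_apply_real, integral_map hms.aemeasurable (by fun_prop)] at h3
    rw [Finset.prod_apply] at h3
    rw [Finset.prod_congr rfl (fun (i : (range n : Finset ℕ)) _ => h4 i)] at h3
    rw [← Complex.exp_sum] at h3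
    rw [Finset.sum_coe_sort (range n) (fun j => ∫ p, (Complex.exp (((t * f p : ℝ) : ℂ) *
      Complex.I) - 1) ∂(sfiniteSeq Q j))] at h3
    rw [← h3]
    congr 1
    funext y
    rw [← Finset.sum_coe_sort (range n) (fun i => Y i y)]
    push_cast
    rfl
  -- limit of the left-hand side
  have hL : Tendsto (fun n : ℕ => ∫ ω, Complex.exp (((t * ∑ j ∈ range n, Y j ω : ℝ) : ℂ) *
      Complex.I) ∂(PP Q)) atTop
      (𝓝 (∫ ω, Complex.exp (((t * ∫ p, f p ∂(M ω) : ℝ) : ℂ) * Complex.I) ∂(PP Q))) := by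
    apply tendsto_integral_of_dominated_convergence (fun _ => (1 : ℝ))
    · intro n
      apply Measurable.aestronglyMeasurable
      fun_prop
    · exact integrable_const _
    · intro n
      exact Filter.Eventually.of_forall fun x => (Complex.norm_exp_ofReal_mul_I _).le
    · filter_upwards [ae_integrable Q hf h] with ω hω
      have h6 : HasSum (fun j => ∫ p, f p ∂(Mj ω j)) (∫ p, f p ∂(M ω)) :=
        hasSum_integral_measure hω
      have h7 := h6.tendsto_sum_nat
      simp_rw [integral_Mj ω _ hf] at h7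
      have h8 : Continuous (fun x : ℝ => Complex.exp (((t * x : ℝ) : ℂ) * Complex.I)) := by
        fun_prop
      exact (h8.tendsto _).comp h7
  -- limit of the right-hand side
  have hgi := integrable_exp_sub_one Q hf h t
  have hR : Tendsto (fun n : ℕ => Complex.exp (∑ j ∈ range n, ∫ p,
      (Complex.exp (((t * f p : ℝ) : ℂ) * Complex.I) - 1) ∂(sfiniteSeq Q j))) atTop
      (𝓝 (Complex.exp (∫ p, (Complex.exp (((t * f p : ℝ) : ℂ) * Complex.I) - 1) ∂Q))) := by
    have hgi' : Integrable (fun p => Complex.exp (((t * f p : ℝ) : ℂ) * Complex.I) - 1)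
        (Measure.sum (sfiniteSeq Q)) := by rwa [sum_sfiniteSeq]
    have h6 := hasSum_integral_measure hgi'
    rw [sum_sfiniteSeq] at h6
    exact (Complex.continuous_exp.tendsto _).comp h6.tendsto_sum_nat
  simp_rw [h1] at hL
  exact tendsto_nhds_unique hL hR

end Full

end Pool.Agent.L5helper98.FS
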