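import Pool.Agent.L5helper98.FS.PRM
import Pool.Agent.L5helper98.FS.Exponent

/-!
# A symmetric stable process (helper98)
-/

set_option autoImplicit false
open MeasureTheory ProbabilityTheory Filter Topology Set
open scoped ENNReal NNReal

namespace Pool.Agent.L5helper98.FS

/-- The Levy measure. -/
noncomputable def nu (α : ℝ) : Measure ℝ :=
  volume.withDensity (fun x => ENNReal.ofReal ((CC α)⁻¹ * w α x))

instance (α : ℝ) : SFinite (nu α) := by unfold nu; infer_instance

/-- The intensity. -/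
noncomputable def QQ (α : ℝ) : Measure (ℝ × ℝ) := (volume.restrict (Ioi (0 : ℝ))).prod (nu α)

instance (α : ℝ) : SFinite (QQ α) := by unfold QQ; infer_instance

lemma lintegral_nu (α : ℝ) {f : ℝ → ℝ≥0∞} (hf : Measurable f) :
    ∫⁻ x, f x ∂(nu α) = ∫⁻ x, ENNReal.ofReal ((CC α)⁻¹ * w α x) * f x := by
  unfold nu
  have := measurable_w α
  rw [lintegral_withDensity_eq_lintegral_mul _ (by fun_prop) hf]
  rfl

lemma lintegral_nu_min {α : ℝ} (h0 : 0 < α) (h1 : α < 1) {δ : ℝ} (hδ : 0 < δ) :
    ∫⁻ x, ENNReal.ofReal (min (|x| / δ) 1) ∂(nu α)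
      = ENNReal.ofReal (δ ^ (-α) * ((CC α)⁻¹ * ∫ x, min |x| 1 * w α x)) := by
  rw [lintegral_nu α (by fun_prop)]
  have hC := CC_pos h0 h1
  have h2 : ∀ x, ENNReal.ofReal ((CC α)⁻¹ * w α x) * ENNReal.ofReal (min (|x| / δ) 1)
      = ENNReal.ofReal ((CC α)⁻¹ * (min (|x| / δ) 1 * w α x)) := by
    intro x
    rw [← ENNReal.ofReal_mul (mul_nonneg (inv_nonneg.2 hC.le) (w_nonneg α x))]
    congr 1
    ring
  simp_rw [h2]
  have h3 : Integrable (fun x => min (|x| / δ) 1 * w α x) := by
    refine Integrable.mono' ((integrable_min h0 h1).const_mul (δ⁻¹ + 1)) ?_ ?_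
    · have := measurable_w α
      apply Measurable.aestronglyMeasurable
      fun_prop
    · refine Filter.Eventually.of_forall fun x => ?_
      have hd : 0 < δ⁻¹ := inv_pos.2 hδ
      rw [Real.norm_eq_abs, abs_of_nonneg (mul_nonneg (by positivity) (w_nonneg α x)), ← mul_assoc]
      refine mul_le_mul_of_nonneg_right ?_ (w_nonneg α x)
      rcases le_total |x| 1 with h | h
      · rw [min_eq_left h, div_eq_inv_mul]
        refine (min_le_left _ _).trans ?_
        nlinarith [abs_nonneg x]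
      · rw [min_eq_right h]
        refine (min_le_right _ _).trans ?_
        linarith
  rw [← ofReal_integral_eq_lintegral_ofReal (h3.const_mul _)]
  · rw [integral_const_mul, integral_scale_min hδ]
    congr 1
    ring
  · exact Filter.Eventually.of_forall fun x => mul_nonneg (inv_nonneg.2 hC.le)
      (mul_nonneg (by positivity) (w_nonneg α x))

/-- The jumps before time `t`. -/
noncomputable def ff (s t : ℝ) (p : ℝ × ℝ) : ℝ := (Ioc s t).indicator (fun _ => p.2) p.1

lemma measurable_ff (s t : ℝ) : Measurable (ff s t) := by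
  have : ff s t = ((Ioc s t) ×ˢ (univ : Set ℝ)).indicator (fun p => p.2) := by
    funext p
    unfold ff
    by_cases h : p.1 ∈ Ioc s t
    · rw [indicator_of_mem h, indicator_of_mem (by exact ⟨h, mem_univ _⟩)]
    · rw [indicator_of_notMem h, indicator_of_notMem (by exact fun h' => h h'.1)]
  rw [this]
  exact measurable_snd.indicator (measurableSet_Ioc.prod MeasurableSet.univ)

lemma lintegral_QQ (α : ℝ) {g : ℝ → ℝ≥0∞} (hg : Measurable g) {s t : ℝ} (hs : 0 ≤ s) :
    ∫⁻ p, (Ioc s t).indicator (fun _ => g p.2) p.1 ∂(QQ α)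
      = ENNReal.ofReal (t - s) * ∫⁻ x, g x ∂(nu α) := by
  unfold QQ
  have h1 : ∀ p : ℝ × ℝ, (Ioc s t).indicator (fun _ => g p.2) p.1
      = (Ioc s t).indicator 1 p.1 * g p.2 := by
    intro p
    by_cases h : p.1 ∈ Ioc s t <;> simp [h]
  simp_rw [h1]
  rw [lintegral_prod_mul (f := (Ioc s t).indicator (1 : ℝ → ℝ≥0∞)) (g := g)
    (measurable_one.indicator measurableSet_Ioc).aemeasurable hg.aemeasurable]
  congr 1
  rw [lintegral_indicator_one measurableSet_Ioc, Measure.restrict_apply measurableSet_Ioc]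
  have : Ioc s t ∩ Ioi 0 = Ioc s t := by
    apply inter_eq_left.2
    intro x hx
    exact lt_of_le_of_lt hs hx.1
  rw [this, Real.volume_Ioc]

lemma lintegral_ff_min {α : ℝ} (h0 : 0 < α) (h1 : α < 1) {s t : ℝ} (hs : 0 ≤ s) :
    ∫⁻ p, min ‖ff s t p‖ₑ 1 ∂(QQ α) ≠ ∞ := by
  have h2 : ∀ p : ℝ × ℝ, min ‖ff s t p‖ₑ 1
      = (Ioc s t).indicator (fun _ => ENNReal.ofReal (min (|p.2| / 1) 1)) p.1 := by
    intro p
    unfold ff
    by_cases h : p.1 ∈ Ioc s t
    · rw [indicator_of_mem h, indicator_of_mem h, ENNReal.ofReal_min, ENNReal.ofReal_one,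
        Real.enorm_eq_ofReal_abs, div_one]
    · rw [indicator_of_notMem h, indicator_of_notMem h]
      simp
  simp_rw [h2]
  rw [lintegral_QQ α (g := fun x => ENNReal.ofReal (min (|x| / 1) 1)) (by fun_prop) hs,
    lintegral_nu_min h0 h1 one_pos]
  exact ENNReal.mul_ne_top ENNReal.ofReal_ne_top ENNReal.ofReal_ne_top

/-- Sample space. -/
abbrev Om : Type := ℕ → ℕ × (ℕ → ℝ × ℝ)

/-- The process. -/
noncomputable def XX (t : ℝ) (ω : Om) : ℝ :=
  (∫⁻ p, ENNReal.ofReal (ff 0 t p) ∂(M ω)).toReal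
    - (∫⁻ p, ENNReal.ofReal (-ff 0 t p) ∂(M ω)).toReal

lemma measurable_XX (t : ℝ) : Measurable (XX t) := by
  have h := measurable_ff 0 t
  unfold XX
  exact ((measurable_lintegral_M (by fun_prop)).ennreal_toReal).sub
    ((measurable_lintegral_M (by fun_prop)).ennreal_toReal)

/-- The good configurations. -/
def good (ω : Om) : Prop := ∀ n : ℕ, Integrable (ff 0 n) (M ω)

lemma ae_good {α : ℝ} (h0 : 0 < α) (h1 : α < 1) : ∀ᵐ ω ∂(PP (QQ α)), good ω := by
  unfold good
  rw [ae_all_iff]
  intro n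
  exact ae_integrable _ (measurable_ff 0 n) (lintegral_ff_min h0 h1 le_rfl)

lemma abs_ff_le {s t s' t' : ℝ} (hs : s' ≤ s) (ht : t ≤ t') (p : ℝ × ℝ) :
    |ff s t p| ≤ |ff s' t' p| := by
  unfold ff
  by_cases h : p.1 ∈ Ioc s t
  · rw [indicator_of_mem h, indicator_of_mem (Ioc_subset_Ioc hs ht h)]
  · rw [indicator_of_notMem h, abs_zero]
    exact abs_nonneg _

lemma good.integrable {ω : Om} (h : good ω) {s : ℝ} (hs : 0 ≤ s) (t : ℝ) :
    Integrable (ff s t) (M ω) := by
  obtain ⟨n, hn⟩ := exists_nat_ge t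
  refine Integrable.mono (h n) (measurable_ff s t).aestronglyMeasurable ?_
  exact Filter.Eventually.of_forall fun p => abs_ff_le hs hn p

lemma good.XX_eq {ω : Om} (h : good ω) (t : ℝ) : XX t ω = ∫ p, ff 0 t p ∂(M ω) := by
  rw [integral_eq_lintegral_pos_part_sub_lintegral_neg_part (h.integrable le_rfl t)]
  rfl

lemma ff_sub {s t : ℝ} (hs : 0 ≤ s) (hst : s ≤ t) (p : ℝ × ℝ) :
    ff 0 t p - ff 0 s p = ff s t p := by
  unfold ff
  by_cases h1 : p.1 ∈ Ioc 0 s
  · have h2 : p.1 ∈ Ioc 0 t := ⟨h1.1, h1.2.trans hst⟩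
    have h3 : p.1 ∉ Ioc s t := fun h => absurd h.1 (not_lt.2 h1.2)
    rw [indicator_of_mem h1, indicator_of_mem h2, indicator_of_notMem h3, sub_self]
  · rw [indicator_of_notMem h1, sub_zero]
    by_cases h2 : p.1 ∈ Ioc 0 t
    · have h3 : p.1 ∈ Ioc s t := by
        refine ⟨?_, h2.2⟩
        by_contra h
        exact h1 ⟨h2.1, not_lt.1 h⟩
      rw [indicator_of_mem h2, indicator_of_mem h3]
    · have h3 : p.1 ∉ Ioc s t := fun h => h2 ⟨lt_of_le_of_lt hs h.1, h.2⟩
      rw [indicator_of_notMem h2, indicator_of_notMem h3]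

lemma good.XX_sub {ω : Om} (h : good ω) {s t : ℝ} (hs : 0 ≤ s) (hst : s ≤ t) :
    XX t ω - XX s ω = ∫ p, ff s t p ∂(M ω) := by
  rw [h.XX_eq, h.XX_eq, ← integral_sub (h.integrable le_rfl t) (h.integrable le_rfl s)]
  simp_rw [ff_sub hs hst]

lemma XX_zero (ω : Om) : XX 0 ω = 0 := by
  unfold XX ff
  simp

/-- Regularity of the paths. -/
lemma good.cadlag {ω : Om} (h : good ω) (t : ℝ) :
    ContinuousWithinAt (fun s => XX s ω) (Ici t) t ∧
      ∃ l : ℝ, Tendsto (fun s => XX s ω) (𝓝[<] t) (𝓝 l) := by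
  obtain ⟨n, hn⟩ := exists_nat_gt t
  have hev : ∀ᶠ s : ℝ in 𝓝 t, s < (n : ℝ) := eventually_lt_nhds hn
  simp_rw [h.XX_eq]
  constructor
  · unfold ContinuousWithinAt
    apply tendsto_integral_filter_of_dominated_convergence (fun p => |ff 0 n p|)
    · exact Filter.Eventually.of_forall fun s => (measurable_ff 0 s).aestronglyMeasurable
    · filter_upwards [mem_nhdsWithin_of_mem_nhds hev] with s hs
      exact Filter.Eventually.of_forall fun p => abs_ff_le le_rfl (le_of_lt hs) p
    · exact (h n).abs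
    · refine Filter.Eventually.of_forall fun p => ?_
      apply tendsto_const_nhds.congr'
      rcases le_or_gt p.1 t with hp | hp
      · filter_upwards [self_mem_nhdsWithin] with s hs
        have hs' : t ≤ s := hs
        unfold ff
        by_cases h0 : 0 < p.1
        · rw [indicator_of_mem (show p.1 ∈ Ioc 0 t from ⟨h0, hp⟩),
            indicator_of_mem (show p.1 ∈ Ioc 0 s from ⟨h0, hp.trans hs'⟩)]
        · rw [indicator_of_notMem (fun h => h0 h.1), indicator_of_notMem (fun h => h0 h.1)]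
      · have : ∀ᶠ s in 𝓝 t, s < p.1 := eventually_lt_nhds hp
        filter_upwards [mem_nhdsWithin_of_mem_nhds this] with s hs
        unfold ff
        rw [indicator_of_notMem (fun h => absurd h.2 (not_le.2 hp)),
          indicator_of_notMem (fun h => absurd h.2 (not_le.2 hs))]
  · refine ⟨∫ p, (Ioo 0 t).indicator (fun _ => p.2) p.1 ∂(M ω), ?_⟩
    apply tendsto_integral_filter_of_dominated_convergence (fun p => |ff 0 n p|)
    · exact Filter.Eventually.of_forall fun s => (measurable_ff 0 s).aestronglyMeasurable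
    · filter_upwards [mem_nhdsWithin_of_mem_nhds hev] with s hs
      exact Filter.Eventually.of_forall fun p => abs_ff_le le_rfl (le_of_lt hs) p
    · exact (h n).abs
    · refine Filter.Eventually.of_forall fun p => ?_
      apply tendsto_const_nhds.congr'
      rcases lt_or_ge p.1 t with hp | hp
      · have : ∀ᶠ s in 𝓝 t, p.1 < s := eventually_gt_nhds hp
        filter_upwards [mem_nhdsWithin_of_mem_nhds this] with s hs
        unfold ff
        by_cases h0 : 0 < p.1
        · rw [indicator_of_mem (show p.1 ∈ Ioo 0 t from ⟨h0, hp⟩),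
            indicator_of_mem (show p.1 ∈ Ioc 0 s from ⟨h0, le_of_lt hs⟩)]
        · rw [indicator_of_notMem (fun h => h0 h.1), indicator_of_notMem (fun h => h0 h.1)]
      · filter_upwards [self_mem_nhdsWithin] with s hs
        have hs' : s < t := hs
        unfold ff
        rw [indicator_of_notMem (fun h => absurd h.2 (not_lt.2 hp)),
          indicator_of_notMem (fun h => absurd h.2 (not_le.2 (hs'.trans_le hp)))]

end Pool.Agent.L5helper98.FS
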